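import Pool.Agent.Y102.AVDefs

/-!
The product of two abelian varieties.
-/

set_option autoImplicit false

namespace Pool.Agent.V5helper88.ID

open Module Pool.Agent.Y102

noncomputable section

variable {g g' : ℕ}

/-- the first projection -/
def p1 (g g' : ℕ) : (Fin (g + g') → ℂ) →L[ℂ] (Fin g → ℂ) :=
  ContinuousLinearMap.pi fun i => ContinuousLinearMap.proj (Fin.castAdd g' i)

/-- the second projection -/
def p2 (g g' : ℕ) : (Fin (g + g') → ℂ) →L[ℂ] (Fin g' → ℂ) :=
  ContinuousLinearMap.pi fun i => ContinuousLinearMap.proj (Fin.natAdd g i)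

theorem p1_apply (z : Fin (g + g') → ℂ) (i : Fin g) : p1 g g' z i = z (Fin.castAdd g' i) := rfl

theorem p2_apply (z : Fin (g + g') → ℂ) (i : Fin g') : p2 g g' z i = z (Fin.natAdd g i) := rfl

theorem p1_append (u : Fin g → ℂ) (v : Fin g' → ℂ) : p1 g g' (Fin.append u v) = u := by
  funext i; rw [p1_apply, Fin.append_left]

theorem p2_append (u : Fin g → ℂ) (v : Fin g' → ℂ) : p2 g g' (Fin.append u v) = v := by
  funext i; rw [p2_apply, Fin.append_right]

theorem append_p (z : Fin (g + g') → ℂ) : Fin.append (p1 g g' z) (p2 g g' z) = z := by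
  funext i
  induction i using Fin.addCases with
  | left i => rw [Fin.append_left, p1_apply]
  | right i => rw [Fin.append_right, p2_apply]

theorem p1_single_left (k : Fin g) : p1 g g' (Pi.single (Fin.castAdd g' k) 1) = Pi.single k 1 := by
  funext i
  rw [p1_apply]
  by_cases h : i = k
  · subst h; rw [Pi.single_eq_same, Pi.single_eq_same]
  · rw [Pi.single_eq_of_ne h, Pi.single_eq_of_ne]
    intro h'; exact h (Fin.castAdd_injective _ _ h')

theorem p2_single_left (k : Fin g) : p2 g g' (Pi.single (Fin.castAdd g' k) 1) = 0 := by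
  funext i
  rw [p2_apply, Pi.single_eq_of_ne, Pi.zero_apply]
  intro h
  have h1 := congrArg Fin.val h
  rw [Fin.val_natAdd, Fin.val_castAdd] at h1
  omega

theorem p1_single_right (k : Fin g') : p1 g g' (Pi.single (Fin.natAdd g k) 1) = 0 := by
  funext i
  rw [p1_apply, Pi.single_eq_of_ne, Pi.zero_apply]
  intro h
  have h1 := congrArg Fin.val h
  rw [Fin.val_natAdd, Fin.val_castAdd] at h1
  omega

theorem p2_single_right (k : Fin g') : p2 g g' (Pi.single (Fin.natAdd g k) 1) = Pi.single k 1 := by
  funext i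
  rw [p2_apply]
  by_cases h : i = k
  · subst h; rw [Pi.single_eq_same, Pi.single_eq_same]
  · rw [Pi.single_eq_of_ne h, Pi.single_eq_of_ne]
    intro h'
    apply h
    have h1 := congrArg Fin.val h'
    rw [Fin.val_natAdd, Fin.val_natAdd] at h1
    exact Fin.ext (by omega)

/-- the identification of the tangent spaces -/
def ee (g g' : ℕ) : ((Fin g → ℂ) × (Fin g' → ℂ)) ≃ₗ[ℝ] (Fin (g + g') → ℂ) where
  toFun x := Fin.append x.1 x.2
  invFun z := (p1 g g' z, p2 g g' z)
  map_add' x y := by
    funext i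
    induction i using Fin.addCases with
    | left i => simp only [Fin.append_left, Pi.add_apply, Prod.fst_add]
    | right i => simp only [Fin.append_right, Pi.add_apply, Prod.snd_add]
  map_smul' c x := by
    funext i
    induction i using Fin.addCases with
    | left i => simp only [Fin.append_left, Pi.smul_apply, Prod.smul_fst, RingHom.id_apply]
    | right i => simp only [Fin.append_right, Pi.smul_apply, Prod.smul_snd, RingHom.id_apply]
  left_inv x := Prod.ext (p1_append _ _) (p2_append _ _)
  right_inv z := append_p z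

theorem ee_apply (x : (Fin g → ℂ) × (Fin g' → ℂ)) : ee g g' x = Fin.append x.1 x.2 := rfl

/-- the indices of the two lattices -/
def ix (g g' : ℕ) : Fin (2 * g) ⊕ Fin (2 * g') ≃ Fin (2 * (g + g')) :=
  finSumFinEquiv.trans (finCongr (by ring))

/-- the indices of the two families of theta functions -/
def kx (m n : ℕ) : Fin (m * n + m + n + 1) ≃ Fin (m + 1) × Fin (n + 1) :=
  (finCongr (by ring)).trans finProdFinEquiv.symm

theorem kx_zero (m n : ℕ) : kx m n 0 = (0, 0) := by
  rw [← Equiv.eq_symm_apply]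
  apply Fin.ext
  simp [kx]

variable (A : AbVar g) (B : AbVar g')

/-- the basis of the lattice -/
def plam : Basis (Fin (2 * (g + g'))) ℝ (Fin (g + g') → ℂ) :=
  ((A.lam.prod B.lam).map (ee g g')).reindex (ix g g')

theorem plam_left (j : Fin (2 * g)) : plam A B (ix g g' (Sum.inl j)) = Fin.append (A.lam j) 0 := by
  unfold plam
  rw [Basis.reindex_apply, Equiv.symm_apply_apply, Basis.map_apply, Basis.prod_apply, ee_apply]
  simp

theorem plam_right (j : Fin (2 * g')) :
    plam A B (ix g g' (Sum.inr j)) = Fin.append 0 (B.lam j) := by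
  unfold plam
  rw [Basis.reindex_apply, Equiv.symm_apply_apply, Basis.map_apply, Basis.prod_apply, ee_apply]
  simp

theorem plam_repr_left (u : Fin (g + g') → ℂ) (j : Fin (2 * g)) :
    (plam A B).repr u (ix g g' (Sum.inl j)) = A.lam.repr (p1 g g' u) j := by
  unfold plam
  rw [Basis.repr_reindex_apply, Equiv.symm_apply_apply, Basis.map_repr, LinearEquiv.trans_apply,
    Basis.prod_repr_inl]
  rfl

theorem plam_repr_right (u : Fin (g + g') → ℂ) (j : Fin (2 * g')) :
    (plam A B).repr u (ix g g' (Sum.inr j)) = B.lam.repr (p2 g g' u) j := by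
  unfold plam
  rw [Basis.repr_reindex_apply, Equiv.symm_apply_apply, Basis.map_repr, LinearEquiv.trans_apply,
    Basis.prod_repr_inr]
  rfl

/-- the quasi-periods -/
def peta (j : Fin (2 * (g + g'))) : Fin (g + g') → ℂ :=
  Sum.elim (fun j => Fin.append (A.η j) 0) (fun j => Fin.append 0 (B.η j)) ((ix g g').symm j)

theorem peta_left (j : Fin (2 * g)) : peta A B (ix g g' (Sum.inl j)) = Fin.append (A.η j) 0 := by
  unfold peta
  rw [Equiv.symm_apply_apply]; rfl

theorem peta_right (j : Fin (2 * g')) :
    peta A B (ix g g' (Sum.inr j)) = Fin.append 0 (B.η j) := by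
  unfold peta
  rw [Equiv.symm_apply_apply]; rfl

/-- the constants -/
def pc (j : Fin (2 * (g + g'))) : ℂ := Sum.elim A.c B.c ((ix g g').symm j)

/-- the theta functions -/
def pth (k : Fin (A.N * B.N + A.N + B.N + 1)) (z : Fin (g + g') → ℂ) : ℂ :=
  A.θ (kx A.N B.N k).1 (p1 g g' z) * B.θ (kx A.N B.N k).2 (p2 g g' z)

variable {A B}

theorem diffA (i : Fin (A.N + 1)) (z : Fin g → ℂ) : DifferentiableAt ℂ (A.θ i) z :=
  (A.entire i z (Set.mem_univ z)).differentiableAt

theorem diffB (i : Fin (B.N + 1)) (z : Fin g' → ℂ) : DifferentiableAt ℂ (B.θ i) z :=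
  (B.entire i z (Set.mem_univ z)).differentiableAt

theorem fderiv_pair {f : (Fin g → ℂ) → ℂ} {h : (Fin g' → ℂ) → ℂ} {z : Fin (g + g') → ℂ}
    (hf : DifferentiableAt ℂ f (p1 g g' z)) (hh : DifferentiableAt ℂ h (p2 g g' z))
    (v : Fin (g + g') → ℂ) :
    fderiv ℂ (fun z => f (p1 g g' z) * h (p2 g g' z)) z v =
      fderiv ℂ f (p1 g g' z) (p1 g g' v) * h (p2 g g' z) +
      f (p1 g g' z) * fderiv ℂ h (p2 g g' z) (p2 g g' v) := by
  have h1 : HasFDerivAt (fun z => f (p1 g g' z)) ((fderiv ℂ f (p1 g g' z)).comp (p1 g g')) z :=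
    hf.hasFDerivAt.comp z (p1 g g').hasFDerivAt
  have h2 : HasFDerivAt (fun z => h (p2 g g' z)) ((fderiv ℂ h (p2 g g' z)).comp (p2 g g')) z :=
    hh.hasFDerivAt.comp z (p2 g g').hasFDerivAt
  have h3 := (h1.mul h2).fderiv
  rw [show (fun z => f (p1 g g' z) * h (p2 g g' z)) = (fun z => f (p1 g g' z)) *
    (fun z => h (p2 g g' z)) from rfl, h3]
  simp only [ContinuousLinearMap.add_apply, ContinuousLinearMap.smul_apply,
    ContinuousLinearMap.comp_apply, smul_eq_mul]
  ring

theorem pd_left {f : (Fin g → ℂ) → ℂ} {h : (Fin g' → ℂ) → ℂ} {z : Fin (g + g') → ℂ}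
    (hf : DifferentiableAt ℂ f (p1 g g' z)) (hh : DifferentiableAt ℂ h (p2 g g' z)) (k : Fin g) :
    pd (Fin.castAdd g' k) (fun z => f (p1 g g' z) * h (p2 g g' z)) z =
      pd k f (p1 g g' z) * h (p2 g g' z) := by
  unfold pd
  rw [fderiv_pair hf hh, p1_single_left, p2_single_left, map_zero, mul_zero, add_zero]

theorem pd_right {f : (Fin g → ℂ) → ℂ} {h : (Fin g' → ℂ) → ℂ} {z : Fin (g + g') → ℂ}
    (hf : DifferentiableAt ℂ f (p1 g g' z)) (hh : DifferentiableAt ℂ h (p2 g g' z)) (k : Fin g') :
    pd (Fin.natAdd g k) (fun z => f (p1 g g' z) * h (p2 g g' z)) z =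
      f (p1 g g' z) * pd k h (p2 g g' z) := by
  unfold pd
  rw [fderiv_pair hf hh, p1_single_right, p2_single_right, map_zero, zero_mul, zero_add]

theorem diff_pd {n : ℕ} {f : (Fin n → ℂ) → ℂ} (hf : AnalyticOnNhd ℂ f Set.univ) (k : Fin n)
    (z : Fin n → ℂ) : DifferentiableAt ℂ (pd k f) z := by
  have h1 : AnalyticOnNhd ℂ (fderiv ℂ f) Set.univ := hf.fderiv
  have h2 : DifferentiableAt ℂ (fderiv ℂ f) z := (h1 z (Set.mem_univ z)).differentiableAt
  exact h2.clm_apply (differentiableAt_const _)

theorem pth_zero : pth A B 0 = fun z => A.θ 0 (p1 g g' z) * B.θ 0 (p2 g g' z) := by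
  funext z
  unfold pth
  rw [kx_zero]

theorem pth_eq (k : Fin (A.N * B.N + A.N + B.N + 1)) : pth A B k =
    fun z => A.θ (kx A.N B.N k).1 (p1 g g' z) * B.θ (kx A.N B.N k).2 (p2 g g' z) := rfl

theorem pth_entire (k : Fin (A.N * B.N + A.N + B.N + 1)) :
    AnalyticOnNhd ℂ (pth A B k) Set.univ := by
  intro z _
  rw [pth_eq]
  exact ((A.entire _ _ (Set.mem_univ _)).comp ((p1 g g').analyticAt z)).mul
    ((B.entire _ _ (Set.mem_univ _)).comp ((p2 g g').analyticAt z))

theorem sum_append (u w : Fin g → ℂ) (v x : Fin g' → ℂ) (z : Fin (g + g') → ℂ) :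
    ∑ k, Fin.append u v k * z k = ∑ k, u k * p1 g g' z k + ∑ k, v k * p2 g g' z k := by
  rw [Fin.sum_univ_add]
  simp only [Fin.append_left, Fin.append_right, p1_apply, p2_apply]

theorem pth_quasi (k : Fin (A.N * B.N + A.N + B.N + 1)) (j : Fin (2 * (g + g')))
    (z : Fin (g + g') → ℂ) : pth A B k (z + plam A B j) =
      Complex.exp (∑ l, peta A B j l * z l + pc A B j) * pth A B k z := by
  obtain ⟨s, rfl⟩ := (ix g g').surjective j
  rcases s with j | j
  · rw [plam_left, peta_left]
    have h1 : pc A B (ix g g' (Sum.inl j)) = A.c j := by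
      unfold pc; rw [Equiv.symm_apply_apply]; rfl
    rw [h1, sum_append (A.η j) (A.η j) 0 0 z]
    unfold pth
    rw [map_add, map_add, p1_append, p2_append, A.quasiperiodic, add_zero]
    simp only [Pi.zero_apply, zero_mul, Finset.sum_const_zero, add_zero]
    ring
  · rw [plam_right, peta_right]
    have h1 : pc A B (ix g g' (Sum.inr j)) = B.c j := by
      unfold pc; rw [Equiv.symm_apply_apply]; rfl
    rw [h1, sum_append 0 0 (B.η j) (B.η j) z]
    unfold pth
    rw [map_add, map_add, p1_append, p2_append, B.quasiperiodic, add_zero]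
    simp only [Pi.zero_apply, zero_mul, Finset.sum_const_zero, zero_add]
    ring

theorem sum_ix {M : Type} [AddCommMonoid M] (f : Fin (2 * (g + g')) → M) :
    ∑ j, f j = ∑ j, f (ix g g' (Sum.inl j)) + ∑ j, f (ix g g' (Sum.inr j)) := by
  rw [← (ix g g').sum_comp f, Fintype.sum_sum_type]

theorem rf_prod (u v : Fin (g + g') → ℂ) : riemannForm (plam A B) (peta A B) u v =
    riemannForm A.lam A.η (p1 g g' u) (p1 g g' v) +
      riemannForm B.lam B.η (p2 g g' u) (p2 g g' v) := by
  unfold riemannForm
  rw [← add_div, Fin.sum_univ_add]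
  congr 2
  · refine Finset.sum_congr rfl fun k _ => ?_
    have h1 : ∀ w : Fin (g + g') → ℂ,
        ∑ j, ((plam A B).repr w j : ℂ) * peta A B j (Fin.castAdd g' k) =
        ∑ j, (A.lam.repr (p1 g g' w) j : ℂ) * A.η j k := by
      intro w
      rw [sum_ix]
      simp only [plam_repr_left, plam_repr_right, peta_left, peta_right, Fin.append_left,
        Pi.zero_apply, mul_zero, Finset.sum_const_zero, add_zero]
    rw [h1, h1]
    rfl
  · refine Finset.sum_congr rfl fun k _ => ?_
    have h1 : ∀ w : Fin (g + g') → ℂ,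
        ∑ j, ((plam A B).repr w j : ℂ) * peta A B j (Fin.natAdd g k) =
        ∑ j, (B.lam.repr (p2 g g' w) j : ℂ) * B.η j k := by
      intro w
      rw [sum_ix]
      simp only [plam_repr_left, plam_repr_right, peta_left, peta_right, Fin.append_right,
        Pi.zero_apply, mul_zero, Finset.sum_const_zero, zero_add]
    rw [h1, h1]
    rfl

theorem rf_zero (A : AbVar g) (v : Fin g → ℂ) : riemannForm A.lam A.η 0 v = 0 := by
  unfold riemannForm
  simp

/-- double sums with Kronecker symbols -/
theorem sum_pth (a : Fin (A.N + 1) → Fin (A.N + 1) → ℂ) (b : Fin (B.N + 1) → Fin (B.N + 1) → ℂ)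
    (z : Fin (g + g') → ℂ) :
    ∑ p, ∑ q, (a (kx A.N B.N p).1 (kx A.N B.N q).1 * b (kx A.N B.N p).2 (kx A.N B.N q).2) *
      (pth A B p z * pth A B q z) =
    (∑ p, ∑ q, a p q * (A.θ p (p1 g g' z) * A.θ q (p1 g g' z))) *
      ∑ p, ∑ q, b p q * (B.θ p (p2 g g' z) * B.θ q (p2 g g' z)) := by
  have h1 : ∀ F : Fin (A.N + 1) × Fin (B.N + 1) → Fin (A.N + 1) × Fin (B.N + 1) → ℂ,
      ∑ p, ∑ q, F (kx A.N B.N p) (kx A.N B.N q) = ∑ P, ∑ Q, F P Q := by
    intro F
    rw [← (kx A.N B.N).sum_comp (fun P => ∑ Q, F P Q)]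
    exact Finset.sum_congr rfl fun p _ => (kx A.N B.N).sum_comp (fun Q => F (kx A.N B.N p) Q)
  have h2 := h1 fun P Q => (a P.1 Q.1 * b P.2 Q.2) *
    ((A.θ P.1 (p1 g g' z) * B.θ P.2 (p2 g g' z)) * (A.θ Q.1 (p1 g g' z) * B.θ Q.2 (p2 g g' z)))
  refine Eq.trans h2 ?_
  rw [Finset.sum_mul_sum, Fintype.sum_prod_type]
  refine Finset.sum_congr rfl fun p _ => ?_
  refine Finset.sum_congr rfl fun p' _ => ?_
  rw [Finset.sum_mul_sum, Fintype.sum_prod_type]
  refine Finset.sum_congr rfl fun q _ => ?_
  refine Finset.sum_congr rfl fun q' _ => ?_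
  ring

theorem alg_ite (P : Prop) [Decidable P] : IsAlgebraic ℚ (if P then (1 : ℂ) else 0) := by
  split
  · exact isAlgebraic_one
  · exact isAlgebraic_zero

variable (A B)

/-- **The product.** -/
def prod : AbVar (g + g') where
  lam := plam A B
  N := A.N * B.N + A.N + B.N
  θ := pth A B
  entire := pth_entire
  η := peta A B
  c := pc A B
  quasiperiodic := pth_quasi
  positive := by
    intro u hu
    have h1 : ∀ (C : AbVar g) (v : Fin g → ℂ),
        0 ≤ (riemannForm C.lam C.η v (Complex.I • v)).re := by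
      intro C v
      by_cases hv : v = 0
      · subst hv; rw [rf_zero]; simp
      · exact (C.positive v hv).le
    have h2 : ∀ (C : AbVar g') (v : Fin g' → ℂ),
        0 ≤ (riemannForm C.lam C.η v (Complex.I • v)).re := by
      intro C v
      by_cases hv : v = 0
      · subst hv; rw [rf_zero]; simp
      · exact (C.positive v hv).le
    rw [rf_prod, Complex.add_re, map_smul, map_smul]
    by_cases h3 : p1 g g' u = 0
    · have h4 : p2 g g' u ≠ 0 := by
        intro h4
        apply hu
        rw [← append_p u, h3, h4]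
        funext i
        induction i using Fin.addCases with
        | left i => rw [Fin.append_left]; rfl
        | right i => rw [Fin.append_right]; rfl
      exact add_pos_of_nonneg_of_pos (h1 A _) (B.positive _ h4)
    · exact add_pos_of_pos_of_nonneg (A.positive _ h3) (h2 B _)
  origin := by
    refine ⟨?_, fun i => ?_, fun k => ?_⟩
    · rw [pth_zero]
      simp only [map_zero]
      rw [A.origin.1, B.origin.1, mul_one]
    · unfold pth
      rw [map_zero, map_zero]
      exact (A.origin.2.1 _).mul (B.origin.2.1 _)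
    · rw [pth_zero]
      induction k using Fin.addCases with
      | left k =>
        rw [pd_left (diffA _ _) (diffB _ _), map_zero, map_zero, B.origin.1, mul_one]
        exact A.origin.2.2 k
      | right k =>
        rw [pd_right (diffA _ _) (diffB _ _), map_zero, map_zero, A.origin.1, one_mul]
        exact B.origin.2.2 k
  immersion := by
    intro v hv
    have h0 : ∀ (i : Fin (A.N + 1)) (j : Fin (B.N + 1)),
        fderiv ℂ (A.θ i) 0 (p1 g g' v) * B.θ j 0 + A.θ i 0 * fderiv ℂ (B.θ j) 0 (p2 g g' v) =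
        A.θ i 0 * B.θ j 0 * (fderiv ℂ (A.θ 0) 0 (p1 g g' v) + fderiv ℂ (B.θ 0) 0 (p2 g g' v)) := by
      intro i j
      have h1 := hv ((kx A.N B.N).symm (i, j))
      rw [pth_zero, pth_eq, Equiv.apply_symm_apply, fderiv_pair (diffA _ _) (diffB _ _),
        fderiv_pair (diffA _ _) (diffB _ _)] at h1
      simp only [map_zero, A.origin.1, B.origin.1, mul_one, one_mul] at h1
      exact h1
    have h3 : p1 g g' v = 0 := by
      refine A.immersion _ fun i => ?_
      have h1 := h0 i 0
      rw [B.origin.1] at h1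
      rw [A.origin.1]
      linear_combination h1
    have h4 : p2 g g' v = 0 := by
      refine B.immersion _ fun i => ?_
      have h1 := h0 0 i
      rw [A.origin.1] at h1
      rw [B.origin.1]
      linear_combination h1
    rw [← append_p v, h3, h4]
    funext i
    induction i using Fin.addCases with
    | left i => rw [Fin.append_left]; rfl
    | right i => rw [Fin.append_right]; rfl
  first := by
    intro k i
    induction k using Fin.addCases with
    | left k =>
      obtain ⟨a, ha, h⟩ := A.first k (kx A.N B.N i).1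
      refine ⟨fun p q => a (kx A.N B.N p).1 (kx A.N B.N q).1 *
        (if (kx A.N B.N p).2 = 0 ∧ (kx A.N B.N q).2 = (kx A.N B.N i).2 then 1 else 0),
        fun p q => (ha _ _).mul (alg_ite _), fun z => ?_⟩
      have h1 := sum_pth (A := A) (B := B) a
        (fun p q => if p = 0 ∧ q = (kx A.N B.N i).2 then 1 else 0) z
      rw [h1, ← h, pth_zero, pth_eq, pd_left (diffA _ _) (diffB _ _),
        pd_left (diffA _ _) (diffB _ _)]
      rw [Finset.sum_eq_single (0 : Fin (B.N + 1)), Finset.sum_eq_single (kx A.N B.N i).2]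
      · simp only [and_self, if_true]
        ring
      · intro q _ hq
        rw [if_neg (fun h => hq h.2), zero_mul]
      · intro h; exact absurd (Finset.mem_univ _) h
      · intro p _ hp
        refine Finset.sum_eq_zero fun q _ => ?_
        rw [if_neg (fun h => hp h.1), zero_mul]
      · intro h; exact absurd (Finset.mem_univ _) h
    | right k =>
      obtain ⟨a, ha, h⟩ := B.first k (kx A.N B.N i).2
      refine ⟨fun p q => (if (kx A.N B.N p).1 = 0 ∧ (kx A.N B.N q).1 = (kx A.N B.N i).1
        then 1 else 0) * a (kx A.N B.N p).2 (kx A.N B.N q).2,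
        fun p q => (alg_ite _).mul (ha _ _), fun z => ?_⟩
      have h1 := sum_pth (A := A) (B := B)
        (fun p q => if p = 0 ∧ q = (kx A.N B.N i).1 then 1 else 0) a z
      rw [h1, ← h, pth_zero, pth_eq, pd_right (diffA _ _) (diffB _ _),
        pd_right (diffA _ _) (diffB _ _)]
      rw [Finset.sum_eq_single (0 : Fin (A.N + 1)), Finset.sum_eq_single (kx A.N B.N i).1]
      · simp only [and_self, if_true]
        ring
      · intro q _ hq
        rw [if_neg (fun h => hq h.2), zero_mul]
      · intro h; exact absurd (Finset.mem_univ _) h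
      · intro p _ hp
        refine Finset.sum_eq_zero fun q _ => ?_
        rw [if_neg (fun h => hp h.1), zero_mul]
      · intro h; exact absurd (Finset.mem_univ _) h
  second := by
    intro k l
    have hl : ∀ k : Fin g, pd (Fin.castAdd g' k) (pth A B 0) =
        fun z => pd k (A.θ 0) (p1 g g' z) * B.θ 0 (p2 g g' z) := by
      intro k
      funext z
      rw [pth_zero, pd_left (diffA _ _) (diffB _ _)]
    have hr : ∀ k : Fin g', pd (Fin.natAdd g k) (pth A B 0) =
        fun z => A.θ 0 (p1 g g' z) * pd k (B.θ 0) (p2 g g' z) := by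
      intro k
      funext z
      rw [pth_zero, pd_right (diffA _ _) (diffB _ _)]
    have key1 : ∀ (b : Fin (A.N + 1) → Fin (A.N + 1) → ℂ) (z : Fin (g + g') → ℂ),
        ∑ p, ∑ q, (b (kx A.N B.N p).1 (kx A.N B.N q).1 *
          (if (kx A.N B.N p).2 = 0 ∧ (kx A.N B.N q).2 = 0 then 1 else 0)) *
          (pth A B p z * pth A B q z) =
        (∑ p, ∑ q, b p q * (A.θ p (p1 g g' z) * A.θ q (p1 g g' z))) *
          (B.θ 0 (p2 g g' z) * B.θ 0 (p2 g g' z)) := by
      intro b z
      have h1 := sum_pth (A := A) (B := B) b (fun p q => if p = 0 ∧ q = 0 then 1 else 0) z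
      rw [h1]
      congr 1
      rw [Finset.sum_eq_single (0 : Fin (B.N + 1)), Finset.sum_eq_single (0 : Fin (B.N + 1))]
      · simp
      · intro q _ hq
        rw [if_neg (fun h => hq h.2), zero_mul]
      · intro h; exact absurd (Finset.mem_univ _) h
      · intro p _ hp
        refine Finset.sum_eq_zero fun q _ => ?_
        rw [if_neg (fun h => hp h.1), zero_mul]
      · intro h; exact absurd (Finset.mem_univ _) h
    have key2 : ∀ (b : Fin (B.N + 1) → Fin (B.N + 1) → ℂ) (z : Fin (g + g') → ℂ),
        ∑ p, ∑ q, ((if (kx A.N B.N p).1 = 0 ∧ (kx A.N B.N q).1 = 0 then 1 else 0) *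
          b (kx A.N B.N p).2 (kx A.N B.N q).2) * (pth A B p z * pth A B q z) =
        (A.θ 0 (p1 g g' z) * A.θ 0 (p1 g g' z)) *
          (∑ p, ∑ q, b p q * (B.θ p (p2 g g' z) * B.θ q (p2 g g' z))) := by
      intro b z
      have h1 := sum_pth (A := A) (B := B) (fun p q => if p = 0 ∧ q = 0 then 1 else 0) b z
      rw [h1]
      congr 1
      rw [Finset.sum_eq_single (0 : Fin (A.N + 1)), Finset.sum_eq_single (0 : Fin (A.N + 1))]
      · simp
      · intro q _ hq
        rw [if_neg (fun h => hq h.2), zero_mul]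
      · intro h; exact absurd (Finset.mem_univ _) h
      · intro p _ hp
        refine Finset.sum_eq_zero fun q _ => ?_
        rw [if_neg (fun h => hp h.1), zero_mul]
      · intro h; exact absurd (Finset.mem_univ _) h
    induction k using Fin.addCases with
    | left k =>
      rw [hl]
      induction l using Fin.addCases with
      | left l =>
        obtain ⟨b, hb, h⟩ := A.second k l
        refine ⟨fun p q => b (kx A.N B.N p).1 (kx A.N B.N q).1 *
          (if (kx A.N B.N p).2 = 0 ∧ (kx A.N B.N q).2 = 0 then 1 else 0),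
          fun p q => (hb _ _).mul (alg_ite _), fun z => ?_⟩
        rw [key1, ← h, hl, pd_left (diff_pd (A.entire 0) _ _) (diffB _ _), pth_zero]
        ring
      | right l =>
        refine ⟨fun _ _ => 0, fun _ _ => isAlgebraic_zero, fun z => ?_⟩
        rw [hr, pd_right (diff_pd (A.entire 0) _ _) (diffB _ _), pth_zero]
        simp only [zero_mul, Finset.sum_const_zero]
        ring
    | right k =>
      rw [hr]
      induction l using Fin.addCases with
      | left l =>
        refine ⟨fun _ _ => 0, fun _ _ => isAlgebraic_zero, fun z => ?_⟩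
        rw [hl, pd_left (diffA _ _) (diff_pd (B.entire 0) _ _), pth_zero]
        simp only [zero_mul, Finset.sum_const_zero]
        ring
      | right l =>
        obtain ⟨b, hb, h⟩ := B.second k l
        refine ⟨fun p q => (if (kx A.N B.N p).1 = 0 ∧ (kx A.N B.N q).1 = 0 then 1 else 0) *
          b (kx A.N B.N p).2 (kx A.N B.N q).2,
          fun p q => (alg_ite _).mul (hb _ _), fun z => ?_⟩
        rw [key2, ← h, hr, pd_right (diffA _ _) (diff_pd (B.entire 0) _ _), pth_zero]
        ring

end

end Pool.Agent.V5helper88.ID
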