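import Pool.Agent.V5helper88.ID.I9
import Pool.Agent.N192.GP.Top

/-!
The decomposition of the classes on the product with an arbitrary structure.
-/

set_option autoImplicit false

namespace Pool.Agent.V5helper88.ID

open Module Function Pool.Agent.Y102 Pool.Agent.W516.DR Pool.Agent.H204R3.GP
  Pool.Agent.W516.KC Pool.Agent.H204R3.SP Pool.Agent.N192.GP

noncomputable section

section setup

variable {g : ℕ} (B : AbVar g) {J : Type} [Fintype J] [DecidableEq J] {d : J → ℕ}
  (V : ∀ j, DRS (d j))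

/-- The members. -/
def σs : Unit ⊕ J → UU
  | Sum.inl _ => sA B
  | Sum.inr j => ⟨d j, V j⟩

/-- The identifications. -/
def ρs : ∀ t, Module.End ℚ (Fin (σs B V t).1 → ℚ) →ₐ[ℚ]
    Module.End ℚ (Fin (nn (fun _ : Unit => g) d t) → ℚ)
  | Sum.inl _ => AlgHom.id ℚ (Module.End ℚ (Fin (2 * g) → ℚ))
  | Sum.inr j => AlgHom.id ℚ (Module.End ℚ (Fin (d j) → ℚ))

theorem ρs_NN (t : Unit ⊕ J) (D : Derivation QBar ℂ ℂ) (lam : ℂ →ₗ[ℚ] ℚ) :
    ρs B V t (NN (σs B V t).2.basis D lam) = NN (ηη (fun _ : Unit => B) V t) D lam := by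
  rcases t with i | j
  · change NN (sA B).2.basis D lam = NN (ηA (fun _ : Unit => B) i) D lam
    rw [sA_basis]
    rfl
  · rfl

theorem gg_eq' : gg (ηη (fun _ : Unit => B) V) (Sum.inl ()) = gA B := by
  have h0 := map_resU (ηη (fun _ : Unit => B) V) (σs B V) (ρs B V) (ρs_NN B V)
  unfold gg gA
  rw [← h0, ← Submodule.map_comp]
  rfl

variable {B V}

/-- The Lie algebra splits off. -/
theorem mem_LG (hperf : gA B ≤ brk (gA B) (gA B)) (hV : ∀ j, SepU (sA B) ⟨d j, V j⟩)
    {X : Module.End ℚ B.H1} (hX : X ∈ gA B) :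
    ((Pi.single (Sum.inl ()) X, 0) : RR (nn (fun _ : Unit => g) d)) ∈
      LG (ηη (fun _ : Unit => B) V) := by
  have h1 : gg (ηη (fun _ : Unit => B) V) (Sum.inl ()) ≤
      brk (gg (ηη (fun _ : Unit => B) V) (Sum.inl ()))
        (gg (ηη (fun _ : Unit => B) V) (Sum.inl ())) := by
    rw [gg_eq']
    exact hperf
  refine split (η := ηη (fun _ : Unit => B) V) (s := Sum.inl ())
    (𝔤 := gg (ηη (fun _ : Unit => B) V) (Sum.inl ())) rfl h1 (fun t ht => ?_) ?_
  · rcases t with i | j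
    · exact absurd rfl ht
    · exact sep_of_sepU (ηη (fun _ : Unit => B) V) (σs B V) (ρs B V) (ρs_NN B V)
        (s := Sum.inl ()) (t := Sum.inr j) (hV j)
  · rw [gg_eq']
    exact hX

end setup

section forms

variable {g : ℕ} {B : AbVar g} {J : Type} [Fintype J] [DecidableEq J] {d : J → ℕ}
  {V : ∀ j, DRS (d j)} {κ κ' : Type} [Fintype κ] [DecidableEq κ] [Fintype κ'] [DecidableEq κ']

/-- The form with variables indexed by the one member. -/
def φU (φ : MultilinearMap ℚ (fun _ : κ => B.H1)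
    (MultilinearMap ℚ (fun _ : κ' => ∀ j, Fin (d j) → ℚ) ℚ)) :
    MultilinearMap ℚ (fun _ : κ => ∀ i : Unit, Fin (2 * (fun _ : Unit => g) i) → ℚ)
      (MultilinearMap ℚ (fun _ : κ' => ∀ j, Fin (d j) → ℚ) ℚ) :=
  φ.compLinearMap fun _ => LinearMap.proj ()

theorem φU_apply (φ : MultilinearMap ℚ (fun _ : κ => B.H1)
    (MultilinearMap ℚ (fun _ : κ' => ∀ j, Fin (d j) → ℚ) ℚ))
    (u : κ → ∀ i : Unit, Fin (2 * (fun _ : Unit => g) i) → ℚ) :
    φU φ u = φ fun l => u l () := rfl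

theorem mix_φU {w : ℤ} {φ : MultilinearMap ℚ (fun _ : κ => B.H1)
    (MultilinearMap ℚ (fun _ : κ' => ∀ j, Fin (d j) → ℚ) ℚ)}
    (h : IsMix B.dR (perTV V) w φ) : IsMix (perTA fun _ : Unit => B) (perTV V) w (φU φ) := by
  obtain ⟨a, ha⟩ := h
  refine ⟨fun K K' => a (fun l => (K l).2) K', fun u v => ?_⟩
  rw [φU_apply, ha]
  refine Fintype.sum_equiv (Equiv.arrowCongr (Equiv.refl κ)
    (Equiv.uniqueSigma fun _ : Unit => Fin g ⊕ Fin g)).symm _ _ fun K => ?_
  rfl

variable {w : ℤ} {φ : MultilinearMap ℚ (fun _ : κ => B.H1)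
    (MultilinearMap ℚ (fun _ : κ' => ∀ j, Fin (d j) → ℚ) ℚ)}

theorem update_unit (u : κ → B.H1) (l : κ) (x : ∀ i : Unit, Fin (2 * (fun _ : Unit => g) i) → ℚ) :
    (fun l' => update (fun l _ => u l : κ → ∀ i : Unit, Fin (2 * (fun _ : Unit => g) i) → ℚ) l x l'
      ()) = update u l (x ()) := by
  funext l'
  by_cases h : l' = l
  · subst h
    rw [update_self, update_self]
  · rw [update_of_ne h, update_of_ne h]

/-- The elements of the Lie algebra kill the forms in the variables of the abelian variety. -/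
theorem kill1 (hperf : gA B ≤ brk (gA B) (gA B)) (hV : ∀ j, SepU (sA B) ⟨d j, V j⟩)
    (h : IsMix B.dR (perTV V) w φ) {X : Module.End ℚ B.H1} (hX : X ∈ gA B) (u : κ → B.H1)
    (v : κ' → ∀ j, Fin (d j) → ℚ) : ∑ l, φ (update u l (X (u l))) v = 0 := by
  have h1 := cur_kills (tw_toB (mix_φU h)) (mem_LG hperf hV hX) (fun j => by
    rw [Pi.single_eq_of_ne (by simp)]) v
  have h2 := h1 fun l _ => u l
  rw [zero_mul] at h2
  rw [← h2]
  refine Finset.sum_congr rfl fun l _ => ?_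
  rw [cur_toB, φU_apply, update_unit]
  congr 3

/-- The normalized components. -/
theorem NN_eq (D : Derivation QBar ℂ ℂ) (lam : ℂ →ₗ[ℚ] ℚ) (u : B.H1) :
    NN B.basis D lam u = nU B (gU D lam) u + (tt D lam / 2) • u := by
  rw [nU_apply]
  have h1 : aU B (gU D lam) = NN B.basis D lam := by
    change NN (sA B).2.basis D lam = _
    rw [sA_basis]
    exact NN_reindex B.basis (eqv g) D lam
  rw [h1]
  exact (sub_add_cancel _ _).symm

theorem acts1 (hperf : gA B ≤ brk (gA B) (gA B)) (hV : ∀ j, SepU (sA B) ⟨d j, V j⟩)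
    (h : IsMix B.dR (perTV V) w φ) {m : ℤ} (hm : (Fintype.card κ : ℤ) = 2 * m)
    (D : Derivation QBar ℂ ℂ) (lam : ℂ →ₗ[ℚ] ℚ) (u : κ → B.H1) (v : κ' → ∀ j, Fin (d j) → ℚ) :
    ∑ l, φ (update u l (NN B.basis D lam (u l))) v = (m * tt D lam) * φ u v := by
  have h1 := kill1 hperf hV h (⟨gU D lam, gU_mem D lam, rfl⟩ : nU B (gU D lam) ∈ gA B) u v
  have h2 : ∀ l, φ (update u l (NN B.basis D lam (u l))) v =
      φ (update u l (nU B (gU D lam) (u l))) v + (tt D lam / 2) * φ u v := by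
    intro l
    rw [NN_eq, MultilinearMap.map_update_add, MultilinearMap.map_update_smul, update_eq_self,
      MultilinearMap.add_apply, MultilinearMap.smul_apply, smul_eq_mul]
  rw [Finset.sum_congr rfl fun l _ => h2 l, Finset.sum_add_distrib, h1, zero_add,
    Finset.sum_const, Finset.card_univ, nsmul_eq_mul]
  have h3 : (Fintype.card κ : ℚ) = 2 * m := by exact_mod_cast hm
  rw [h3]
  ring

/-- The action on the other variables. -/
theorem acts2 (hperf : gA B ≤ brk (gA B) (gA B)) (hV : ∀ j, SepU (sA B) ⟨d j, V j⟩)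
    (h : IsMix B.dR (perTV V) w φ) {m : ℤ} (hm : (Fintype.card κ : ℤ) = 2 * m)
    (D : Derivation QBar ℂ ℂ) (lam : ℂ →ₗ[ℚ] ℚ) (u : κ → B.H1) (v : κ' → ∀ j, Fin (d j) → ℚ) :
    ∑ l, φ u (update v l (NN (N192.GP.eB fun j => (V j).basis) D lam (v l))) =
      (((w - m : ℤ) : ℚ) * tt D lam) * φ u v := by
  have h2 := cur_acts (LG_le_LL _ (gn_mem_LG (ηη (fun _ : Unit => B) V) D lam) (κ ⊕ κ') w
    (toB (φU φ)) (tw_toB (mix_φU h))) v fun l _ => u l
  have h3 := acts1 hperf hV h hm D lam u v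
  have h4 : ∑ l, cur (toB (φU φ)) v (update (fun l _ => u l) l
      (act (n := fun i : Unit => 2 * (fun _ : Unit => g) i)
        (fun i => (gn (ηη (fun _ : Unit => B) V) D lam).1 (Sum.inl i)) (fun _ => u l))) =
      ∑ l, φ (update u l (NN B.basis D lam (u l))) v := by
    refine Finset.sum_congr rfl fun l _ => ?_
    rw [cur_toB, φU_apply, update_unit]
    congr 3
    exact LinearMap.congr_fun (NN_inl (fun _ : Unit => B) V () D lam) (u l)
  have h5 : ∑ l, cur (toB (φU φ)) (update v l (act (n := d) (fun j =>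
      (gn (ηη (fun _ : Unit => B) V) D lam).1 (Sum.inr j)) (v l))) (fun l _ => u l) =
      ∑ l, φ u (update v l (NN (N192.GP.eB fun j => (V j).basis) D lam (v l))) := by
    refine Finset.sum_congr rfl fun l _ => ?_
    rw [cur_toB, φU_apply]
    congr 2
    funext j
    rw [NN_eB]
    rfl
  rw [h4, h5, h3] at h2
  have h6 : (gn (ηη (fun _ : Unit => B) V) D lam).2 = tt D lam := rfl
  have h7 : cur (toB (φU φ)) v (fun l _ => u l) = φ u v := rfl
  rw [h6, h7] at h2
  push_cast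
  linear_combination h2

end forms

section main

variable {g : ℕ} {B : AbVar g} {J : Type} [Fintype J] [DecidableEq J] {d : J → ℕ}
  {V : ∀ j, DRS (d j)} {κ κ' : Type} [Fintype κ] [DecidableEq κ] [Fintype κ'] [DecidableEq κ']
  {w : ℤ}

/-- Mixed forms which are alternating in the variables of the abelian variety. -/
abbrev Mx (B : AbVar g) (d : J → ℕ) (κ κ' : Type) : Type :=
  B.H1 [⋀^κ]→ₗ[ℚ] (MultilinearMap ℚ (fun _ : κ' => ∀ j, Fin (d j) → ℚ) ℚ)

/-- The form in the variables of the abelian variety. -/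
def fv (φ : Mx B d κ κ') : MultilinearMap ℚ (fun _ : κ' => ∀ j, Fin (d j) → ℚ)
    (B.H1 [⋀^κ]→ₗ[ℚ] ℚ) :=
  MultilinearMap.mk' (fun v =>
    { toFun := fun u => φ u v
      map_update_add' := fun {_} u l x y => by
        have h : ∀ (i : DecidableEq κ), (φ (@update κ (fun _ => B.H1) i u l (x + y))) v =
          φ (@update κ (fun _ => B.H1) i u l x) v + φ (@update κ (fun _ => B.H1) i u l y) v := by
          intro i
          rw [φ.map_update_add, MultilinearMap.add_apply]
        exact h _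
      map_update_smul' := fun {_} u l c x => by
        have h : ∀ (i : DecidableEq κ), (φ (@update κ (fun _ => B.H1) i u l (c • x))) v =
          c • φ (@update κ (fun _ => B.H1) i u l x) v := by
          intro i
          rw [φ.map_update_smul, MultilinearMap.smul_apply]
        exact h _
      map_eq_zero_of_eq' := fun u i j h hij => by
        have h1 := φ.map_eq_zero_of_eq u h hij
        change φ u v = 0
        rw [h1, MultilinearMap.zero_apply] })
    (fun v l x y => by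
      refine AlternatingMap.ext fun u => ?_
      exact (φ u).map_update_add v l x y)
    (fun v l c x => by
      refine AlternatingMap.ext fun u => ?_
      exact (φ u).map_update_smul v l c x)

theorem fv_apply (φ : Mx B d κ κ') (v : κ' → ∀ j, Fin (d j) → ℚ) (u : κ → B.H1) :
    fv φ v u = φ u v := rfl

/-- The condition on the forms in the variables of the abelian variety. -/
def actA (X : Module.End ℚ B.H1) (c : ℚ) : Submodule ℚ (B.H1 [⋀^κ]→ₗ[ℚ] ℚ) where
  carrier := {ψ | ActsBy X ψ.toMultilinearMap c}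
  zero_mem' := fun v => by
    change ∑ l, (0 : ℚ) = c * 0
    rw [Finset.sum_const_zero, mul_zero]
  add_mem' := fun {ψ ψ'} h h' v => by
    have e1 := h v
    have e2 := h' v
    change ∑ l, (ψ (update v l (X (v l))) + ψ' (update v l (X (v l)))) = c * (ψ v + ψ' v)
    rw [Finset.sum_add_distrib, mul_add]
    exact congrArg₂ (· + ·) e1 e2
  smul_mem' := fun t ψ h v => by
    have e1 := h v
    change ∑ l, (t * ψ (update v l (X (v l)))) = c * (t * ψ v)
    rw [← Finset.mul_sum]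
    have e2 : ∑ l, ψ (update v l (X (v l))) = c * ψ v := e1
    rw [e2]
    ring

/-- **The decomposition.** -/
theorem decomp (hperf : gA B ≤ brk (gA B) (gA B)) (hV : ∀ j, SepU (sA B) ⟨d j, V j⟩)
    {φ : Mx B d κ κ'} (h : IsMix B.dR (perTV V) w φ.toMultilinearMap) {m : ℤ}
    (hm : (Fintype.card κ : ℤ) = 2 * m) :
    ∃ (N : ℕ) (ψ : Fin N → B.H1 [⋀^κ]→ₗ[ℚ] ℚ)
      (χ : Fin N → MultilinearMap ℚ (fun _ : κ' => ∀ j, Fin (d j) → ℚ) ℚ),
      (∀ k, IsTw B.dR m (ψ k).toMultilinearMap ∧ IsTw (perTV V) (w - m) (χ k)) ∧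
      ∀ u v, φ u v = ∑ k, ψ k u * χ k v := by
  let M : Submodule ℚ (B.H1 [⋀^κ]→ₗ[ℚ] ℚ) := Submodule.span ℚ (Set.range (fv φ))
  have hM : ∀ v, fv φ v ∈ M := fun v => Submodule.subset_span ⟨v, rfl⟩
  have hMf : FiniteDimensional ℚ (B.H1 [⋀^κ]→ₗ[ℚ] ℚ) := by
    let f : (B.H1 [⋀^κ]→ₗ[ℚ] ℚ) →ₗ[ℚ] MultilinearMap ℚ (fun _ : κ => B.H1) ℚ :=
      { toFun := fun ψ => ψ.toMultilinearMap
        map_add' := fun _ _ => rfl
        map_smul' := fun _ _ => rfl }
    exact Module.Finite.of_injective f fun ψ ψ' h => AlternatingMap.ext fun v =>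
      congrArg (fun θ : MultilinearMap ℚ (fun _ : κ => B.H1) ℚ => θ v) h
  have hM2 : ∀ D lam, M ≤ actA (NN B.basis D lam) (m * tt D lam) := by
    intro D lam
    refine Submodule.span_le.2 ?_
    rintro _ ⟨v, rfl⟩
    exact fun u => acts1 hperf hV h hm D lam u v
  let b := Module.finBasis ℚ M
  choose c hc using fun k => LinearMap.exists_extend (b.coord k)
  have hc' : ∀ k (x : M), c k x = b.coord k x := fun k x => LinearMap.congr_fun (hc k) x
  refine ⟨finrank ℚ M, fun k => (b k : B.H1 [⋀^κ]→ₗ[ℚ] ℚ),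
    fun k => (c k).compMultilinearMap (fv φ), fun k => ⟨?_, ?_⟩, fun u v => ?_⟩
  · have h1 : IsTw B.basis m (b k : B.H1 [⋀^κ]→ₗ[ℚ] ℚ).toMultilinearMap :=
      tw_of_acts B.basis fun D lam => hM2 D lam (b k).2
    rw [B.coe_basis] at h1
    exact h1
  · refine tw_perTV V (tw_of_acts _ fun D lam v => ?_)
    have h1 : ∑ l, fv φ (update v l (NN (N192.GP.eB fun j => (V j).basis) D lam (v l))) =
        (((w - m : ℤ) : ℚ) * tt D lam) • fv φ v := by
      refine AlternatingMap.ext fun u => ?_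
      let ev : (B.H1 [⋀^κ]→ₗ[ℚ] ℚ) →ₗ[ℚ] ℚ :=
        { toFun := fun ψ => ψ u, map_add' := fun _ _ => rfl, map_smul' := fun _ _ => rfl }
      change ev (∑ l, fv φ (update v l (NN (N192.GP.eB fun j => (V j).basis) D lam (v l)))) =
        ev ((((w - m : ℤ) : ℚ) * tt D lam) • fv φ v)
      rw [map_sum, map_smul, smul_eq_mul]
      exact acts2 hperf hV h hm D lam u v
    have h2 := congrArg (c k) h1
    rw [map_sum, map_smul, smul_eq_mul] at h2
    exact h2
  · have h1 := b.sum_repr ⟨fv φ v, hM v⟩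
    let ev : (B.H1 [⋀^κ]→ₗ[ℚ] ℚ) →ₗ[ℚ] ℚ :=
      { toFun := fun ψ => ψ u, map_add' := fun _ _ => rfl, map_smul' := fun _ _ => rfl }
    have h2 := congrArg (fun x : M => ev (x : B.H1 [⋀^κ]→ₗ[ℚ] ℚ)) h1
    simp only [AddSubmonoidClass.coe_finsetSum, SetLike.val_smul, map_sum,
      map_smul, smul_eq_mul] at h2
    have h4 : ev (fv φ v) = φ u v := rfl
    rw [h4] at h2
    rw [← h2]
    refine Finset.sum_congr rfl fun k _ => ?_
    rw [LinearMap.compMultilinearMap_apply]
    have h3 := hc' k ⟨fv φ v, hM v⟩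
    rw [Basis.coord_apply] at h3
    change _ = (b k : B.H1 [⋀^κ]→ₗ[ℚ] ℚ) u * c k (fv φ v)
    rw [h3, mul_comm]
    rfl

end main

end

end Pool.Agent.V5helper88.ID
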