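import Pool.Agent.V5helper88.ID.I10
import Pool.Agent.V5helper88.HR.G22

/-!
The classes in the variables of the abelian variety.
-/

set_option autoImplicit false

namespace Pool.Agent.V5helper88.ID

open Matrix Module Function Pool.Agent.Y102 Pool.Agent.W516.DR Pool.Agent.H204R3.GP
  Pool.Agent.W516.KC Pool.Agent.H204R3.SP Pool.Agent.N192.GP Pool.Agent.V5helper88.HR

noncomputable section

section kil

variable {g : ℕ} {A : AbVar g} {b : Basis (Fin (2 * g)) ℚ A.H1}
  {𝔥 : Submodule ℚ (Module.End ℚ A.H1)}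

theorem cxf_kil' {κ : Type} [Fintype κ] [DecidableEq κ] {φ : A.H1 [⋀^κ]→ₗ[ℚ] ℚ}
    (h : ∀ X ∈ 𝔥, ∀ v : κ → A.H1, ∑ s, φ (update v s (X (v s))) = 0) :
    Kil (HF b 𝔥) (cxf b φ) := by
  intro Z hZ
  refine HF_ind (p := fun Z => ∀ w, ∑ s, cxf b φ (update w s (Z *ᵥ w s)) = 0) ?_ ?_ ?_ ?_ hZ
  · intro X hX
    refine der_zero_of_basis fun v => ?_
    have h1 := h X hX fun p => b (v p)
    have h2 : ∀ s, φ (update (fun p => b (v p)) s (X (b (v s))))
        = ∑ t, mt b X t (v s) * φ fun p => b (update v s t p) := by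
      intro s
      rw [mt_apply]
      have h3 := map_sum (φ.toMultilinearMap.toLinearMap (fun p => b (v p)) s)
        (fun t => mt b X t (v s) • b t) Finset.univ
      change φ (update _ s _) = _ at h3
      rw [h3]
      refine Finset.sum_congr rfl fun t _ => ?_
      change φ (update _ s _) = _
      rw [φ.map_update_smul, smul_eq_mul]
      congr 2
      funext p
      by_cases h : p = s
      · subst h; rw [update_self, update_self]
      · rw [update_of_ne h, update_of_ne h]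
    rw [Finset.sum_congr rfl fun s _ => h2 s] at h1
    have h3 := congrArg (algebraMap ℚ ℂ) h1
    rw [map_zero, map_sum] at h3
    rw [← h3]
    refine Finset.sum_congr rfl fun s _ => ?_
    rw [map_sum]
    refine Finset.sum_congr rfl fun t _ => ?_
    rw [cxf_basis, map_mul]
    rfl
  · intro w
    refine Finset.sum_eq_zero fun s _ => ?_
    rw [zero_mulVec]
    exact (cxf b φ).map_update_zero _ _
  · intro x y hx hy w
    simp only [add_mulVec]
    rw [Finset.sum_congr rfl fun s _ => (cxf b φ).map_update_add _ _ _ _,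
      Finset.sum_add_distrib, hx, hy, add_zero]
  · intro z x hx w
    simp only [smul_mulVec]
    rw [Finset.sum_congr rfl fun s _ => (cxf b φ).map_update_smul _ _ _ _, ← Finset.smul_sum,
      hx, smul_zero]

/-- A form whose complexification vanishes. -/
theorem cxf_zero {κ : Type} [Fintype κ] [DecidableEq κ] {φ : A.H1 [⋀^κ]→ₗ[ℚ] ℚ}
    (h : cxf b φ = 0) : φ = 0 := by
  refine Basis.ext_alternating b fun v _ => ?_
  have h1 := cxf_basis b φ v
  rw [h, AlternatingMap.zero_apply] at h1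
  rw [AlternatingMap.zero_apply]
  exact_mod_cast h1.symm

end kil

section

variable {g : ℕ}

/-- All classes are combinations of products, in terms of the blocks. -/
theorem main' (A : AbVar g) (hs : ∀ P ∈ A.EA, ∀ u v, A.om (P u) v = A.om u (P v))
    (hd : ∀ Y, Block (HH (bs A)) Y → finrank ℂ Y ≤ 4) (k : ℕ) :
    WA A k ≤ QA A k := by
  let b : Basis (Fin (2 * g)) ℚ A.H1 := Pi.basisFun ℚ (Fin (2 * g))
  have hS := sys_of_sym b hs
  refine span_of_core b fun φ hφ ho => ?_
  let S : Set (Matrix (Fin (2 * g)) (Fin (2 * g)) ℂ) :=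
    {Z | ∃ P ∈ A.EA, Z = cc (Qm b P)}
  have hSc : ∀ Q ∈ S, Cm (HH b) (Q * cc (Om b)) := by
    rintro _ ⟨P, hP, rfl⟩
    rw [← cc_mul, Qm_Om, cc_neg]
    have h1 := (cm_cc (b := b) hP).smul (-1)
    rwa [neg_one_smul] at h1
  have hSp : ∀ Q : Matrix (Fin (2 * g)) (Fin (2 * g)) ℂ, Cm (HH b) (Q * cc (Om b)) →
      Q ∈ Submodule.span ℂ S := by
    intro Q hQ
    have h1 : Q * cc (Om b) ∈ Submodule.span ℂ
        {Z | ∃ X ∈ (A.EA).map (mt b).toLinearMap, Z = cc X} := by
      refine mem_span_of_lm _ _ fun l => ?_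
      exact ⟨(mt b).symm (lm l (Q * cc (Om b))), comp_mem hQ l, AlgEquiv.apply_symm_apply _ _⟩
    have h2 : Q = (Q * cc (Om b)) * cc (RR b) := by
      rw [mul_assoc, ← cc_mul, mul_RR, cc_one, mul_one]
    rw [h2]
    refine Submodule.span_induction (p := fun Z _ => Z * cc (RR b) ∈ Submodule.span ℂ S)
      ?_ ?_ ?_ ?_ h1
    · rintro _ ⟨_, ⟨P, hP, rfl⟩, rfl⟩
      have h3 : cc ((mt b).toLinearMap P) * cc (RR b) = (-1 : ℂ) • cc (Qm b P) := by
        unfold Qm
        rw [RR_tr, mul_neg, cc_neg, smul_neg, neg_smul, one_smul, neg_neg, cc_mul]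
        rfl
      rw [h3]
      exact Submodule.smul_mem _ _ (Submodule.subset_span ⟨P, hP, rfl⟩)
    · rw [zero_mul]; exact Submodule.zero_mem _
    · intro x y _ _ hx hy
      rw [add_mul]; exact Submodule.add_mem _ hx hy
    · intro z x _ hx
      rw [smul_mul_assoc]; exact Submodule.smul_mem _ _ hx
  have h0 : cxf b φ = 0 := by
    refine full_vanish hS hd hSc hSp k (cxf b φ) (cxf_kil hφ) fun Q hQ => ?_
    choose P hP hQP using hQ
    have h1 := ho P hP
    have h2 := congrArg (algebraMap ℚ ℂ) h1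
    rw [map_sum, map_zero] at h2
    rw [← h2]
    unfold full
    refine Finset.sum_congr rfl fun v _ => ?_
    rw [map_mul, map_prod, cxf_basis]
    congr 1
    refine Finset.prod_congr rfl fun i _ => ?_
    rw [hQP i]
    rfl
  apply ev_inj b
  rw [map_zero]
  funext v
  have h1 := cxf_basis b φ v
  rw [h0, AlternatingMap.zero_apply] at h1
  have h2 : (φ fun p => b (v p)) = 0 := by exact_mod_cast h1.symm
  exact h2


end

variable {g : ℕ} {B : AbVar g} {J : Type} [Fintype J] [DecidableEq J] {d : J → ℕ}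
  {V : ∀ j, DRS (d j)} {κ κ' : Type} [Fintype κ] [DecidableEq κ] [Fintype κ'] [DecidableEq κ']
  {w : ℤ}

/-- **Odd degree.** -/
theorem odd_zero (hs : Sy B) (hd : ∀ Y, Block (HH (bs B)) Y → finrank ℂ Y ≤ 4)
    (hV : ∀ j, SepU (sA B) ⟨d j, V j⟩) {φ : Mx B d κ κ'}
    (h : IsMix B.dR (perTV V) w φ.toMultilinearMap) (ho : Odd (Fintype.card κ)) : φ = 0 := by
  have hF := gA_full B
  have hS := sys_full (bs B) hs hF
  refine AlternatingMap.ext fun u => MultilinearMap.ext fun v => ?_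
  have h1 : fv φ v = 0 := by
    refine cxf_zero (b := bs B) (odd_vanish' hS (fun Y hY => hd Y ((block_full hF).1 hY)) ho
      (cxf_kil' (𝔥 := gA B) fun X hX u => ?_))
    exact kill1 hs.perf hV h hX u v
  have h2 := congrArg (fun ψ : B.H1 [⋀^κ]→ₗ[ℚ] ℚ => ψ u) h1
  exact h2

/-- **Even degree.** -/
theorem even_split (hs : Sy B) (hd : ∀ Y, Block (HH (bs B)) Y → finrank ℂ Y ≤ 4)
    (hV : ∀ j, SepU (sA B) ⟨d j, V j⟩) {k : ℕ} {φ : Mx B d (Fin k × Fin 2) κ'}
    (h : IsMix B.dR (perTV V) w φ.toMultilinearMap) :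
    ∃ (N : ℕ) (ψ : Fin N → AF B k)
      (χ : Fin N → MultilinearMap ℚ (fun _ : κ' => ∀ j, Fin (d j) → ℚ) ℚ),
      (∀ l, ψ l ∈ QA B k ∧ IsTw (perTV V) (w - k) (χ l)) ∧
      ∀ u v, φ u v = ∑ l, ψ l u * χ l v := by
  have hc : (Fintype.card (Fin k × Fin 2) : ℤ) = 2 * (k : ℤ) := by
    rw [Fintype.card_prod, Fintype.card_fin, Fintype.card_fin]
    push_cast
    ring
  obtain ⟨N, ψ, χ, h1, h2⟩ := decomp hs.perf hV h hc
  refine ⟨N, ψ, χ, fun l => ⟨?_, (h1 l).2⟩, h2⟩
  refine main' B hs hd k ?_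
  obtain ⟨a, ha⟩ := (h1 l).1
  have h3 : IsDeRhamBettiForm QBar B.dR tau k (ψ l).toMultilinearMap := by
    refine ⟨a, fun v => ?_⟩
    have h4 := ha v
    rw [zpow_natCast] at h4
    exact h4
  exact fun X hX v => B.kills_of_mem h3 hX v

end

end Pool.Agent.V5helper88.ID
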