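import Pool.Agent.V5helper88.ID.I1
import Pool.Agent.N192.GP.Clos

/-!
The homology and the de Rham structure of the product.
-/

set_option autoImplicit false

namespace Pool.Agent.V5helper88.ID

open Module Function Pool.Agent.Y102 Pool.Agent.W516.DR Pool.Agent.H204R3.GP Pool.Agent.W516.KC
  Pool.Agent.H204R3.SP Pool.Agent.N192.GP

noncomputable section

variable {g g' : ℕ}

/-! ### The structure of an abelian variety -/

/-- The structure given by the first homology. -/
def sA (A : AbVar g) : UU :=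
  ⟨2 * g, ⟨A.basis.reindex (eqv g), (A.basis.reindex (eqv g)).linearIndependent⟩⟩

theorem sA_basis (A : AbVar g) : (sA A).2.basis = A.basis.reindex (eqv g) := by
  apply Basis.eq_of_apply_eq
  intro i
  rw [DRS.coe_basis]
  rfl

theorem sA_eta (A : AbVar g) (i : Fin g ⊕ Fin g) (u : A.H1) :
    (sA A).2.eta (eqv g i) u = A.dR i u := by
  change (A.basis.reindex (eqv g)) (eqv g i) u = _
  rw [Basis.reindex_apply, Equiv.symm_apply_apply, A.coe_basis]

/-- The action of the universal Lie algebra on the homology. -/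
def aU (A : AbVar g) : RU →ₗ[ℚ] Module.End ℚ A.H1 where
  toFun ℓ := ℓ.1 (sA A)
  map_add' _ _ := rfl
  map_smul' _ _ := rfl

/-- The normalized action. -/
def nU (A : AbVar g) : RU →ₗ[ℚ] Module.End ℚ A.H1 := prU (sA A)

theorem nU_apply (A : AbVar g) (ℓ : RU) (u : A.H1) : nU A ℓ u = aU A ℓ u - (ℓ.2 / 2) • u := rfl

theorem nU_hm (A : AbVar g) {x y : RU} : nU A (x * y - y * x) = nU A x * nU A y - nU A y * nU A x :=
  prU_hm (sA A) ⊤ x trivial y trivial

/-- The Lie algebra. -/
def gA (A : AbVar g) : Submodule ℚ (Module.End ℚ A.H1) := LU.map (nU A)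

/-- The Lie algebra is full. -/
theorem gA_full (A : AbVar g) : A.Full (gA A) := by
  have h0 : gA A = ggU (sA A) := rfl
  rw [h0]
  rw [← pair_gg (sA A) (sA A)]
  refine full_of A (gg_br (η := fun b => (σp (sA A) (sA A) b).2.basis) false)
    (fun D lam => ?_) fun m φ hφ X hX => ?_
  · refine ⟨gn _ D lam, gn_mem_LG _ D lam, ?_⟩
    rw [pr_gn]
    change X0 (sA A).2.basis tau D lam = _
    rw [sA_basis, X0_eq, X0_eq]
    exact congrArg (fun Z : Module.End ℚ A.H1 => Z - (tt D lam / 2) • (1 : Module.End ℚ A.H1))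
      (NN_reindex A.basis (eqv g) D lam)
  · obtain ⟨ℓ, hℓ, rfl⟩ := hX
    refine pr_kills (fun b => (σp (sA A) (sA A) b).2.basis) (t := false) (w := m) ?_ ?_ hℓ
    · rw [Fintype.card_prod, Fintype.card_fin, Fintype.card_fin]
      push_cast
      ring
    · exact (congrArg (fun b : Basis (Fin (2 * g)) ℂ ((Fin (2 * g) → ℚ) →ₗ[ℚ] ℂ) =>
        IsTw (κ := Fin m × Fin 2) b (m : ℤ) φ) (sA_basis A)).mpr
        ((IsTw_reindex A.basis (eqv g)).2 hφ)

/-- A homomorphism of de Rham-Betti structures. -/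
def IsHm (A : AbVar g) (B : AbVar g') (f : A.H1 →ₗ[ℚ] B.H1) : Prop :=
  ∃ a : Fin g' ⊕ Fin g' → Fin g ⊕ Fin g → QBar, ∀ i u, B.dR i (f u) =
    ∑ j, algebraMap QBar ℂ (a i j) * A.dR j u

theorem IsHm.isH {A : AbVar g} {B : AbVar g'} {f : A.H1 →ₗ[ℚ] B.H1} (h : IsHm A B f) :
    IsH (V' := sA A) (V := sA B) f := by
  obtain ⟨a, ha⟩ := h
  refine ⟨fun i j => a ((eqv g').symm i) ((eqv g).symm j), fun i u => ?_⟩
  obtain ⟨i, rfl⟩ := (eqv g').surjective i
  have h1 : (sA B).2.eta (eqv g' i) (f u) = B.dR i (f u) := sA_eta B i (f u)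
  refine h1.trans ((ha i u).trans ?_)
  have h2 := (eqv g).sum_comp (fun j => algebraMap QBar ℂ (a ((eqv g').symm (eqv g' i))
    ((eqv g).symm j)) * (sA A).2.eta j u)
  refine Eq.trans ?_ h2
  refine Finset.sum_congr rfl fun j _ => ?_
  rw [Equiv.symm_apply_apply, Equiv.symm_apply_apply]
  congr 1
  exact (sA_eta A j u).symm

/-! ### The product -/

/-- the projections of the homology -/
def π1 (g g' : ℕ) : (Fin (2 * (g + g')) → ℚ) →ₗ[ℚ] (Fin (2 * g) → ℚ) :=
  LinearMap.funLeft ℚ ℚ fun j => ix g g' (Sum.inl j)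

def π2 (g g' : ℕ) : (Fin (2 * (g + g')) → ℚ) →ₗ[ℚ] (Fin (2 * g') → ℚ) :=
  LinearMap.funLeft ℚ ℚ fun j => ix g g' (Sum.inr j)

theorem π1_apply (w : Fin (2 * (g + g')) → ℚ) (j : Fin (2 * g)) :
    π1 g g' w j = w (ix g g' (Sum.inl j)) := rfl

theorem π2_apply (w : Fin (2 * (g + g')) → ℚ) (j : Fin (2 * g')) :
    π2 g g' w j = w (ix g g' (Sum.inr j)) := rfl

/-- the inclusions -/
def κ1 (g g' : ℕ) : (Fin (2 * g) → ℚ) →ₗ[ℚ] (Fin (2 * (g + g')) → ℚ) where
  toFun u j := Sum.elim u (fun _ => 0) ((ix g g').symm j)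
  map_add' u v := by
    funext j
    obtain ⟨s, rfl⟩ := (ix g g').surjective j
    rcases s with s | s <;> simp
  map_smul' c u := by
    funext j
    obtain ⟨s, rfl⟩ := (ix g g').surjective j
    rcases s with s | s <;> simp

def κ2 (g g' : ℕ) : (Fin (2 * g') → ℚ) →ₗ[ℚ] (Fin (2 * (g + g')) → ℚ) where
  toFun u j := Sum.elim (fun _ => 0) u ((ix g g').symm j)
  map_add' u v := by
    funext j
    obtain ⟨s, rfl⟩ := (ix g g').surjective j
    rcases s with s | s <;> simp
  map_smul' c u := by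
    funext j
    obtain ⟨s, rfl⟩ := (ix g g').surjective j
    rcases s with s | s <;> simp

theorem κ1_inl (u : Fin (2 * g) → ℚ) (j : Fin (2 * g)) :
    κ1 g g' u (ix g g' (Sum.inl j)) = u j := by
  change Sum.elim u (fun _ => 0) ((ix g g').symm (ix g g' (Sum.inl j))) = _
  rw [Equiv.symm_apply_apply]; rfl

theorem κ1_inr (u : Fin (2 * g) → ℚ) (j : Fin (2 * g')) :
    κ1 g g' u (ix g g' (Sum.inr j)) = 0 := by
  change Sum.elim u (fun _ => 0) ((ix g g').symm (ix g g' (Sum.inr j))) = _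
  rw [Equiv.symm_apply_apply]; rfl

theorem κ2_inl (u : Fin (2 * g') → ℚ) (j : Fin (2 * g)) :
    κ2 g g' u (ix g g' (Sum.inl j)) = 0 := by
  change Sum.elim (fun _ => 0) u ((ix g g').symm (ix g g' (Sum.inl j))) = _
  rw [Equiv.symm_apply_apply]; rfl

theorem κ2_inr (u : Fin (2 * g') → ℚ) (j : Fin (2 * g')) :
    κ2 g g' u (ix g g' (Sum.inr j)) = u j := by
  change Sum.elim (fun _ => 0) u ((ix g g').symm (ix g g' (Sum.inr j))) = _
  rw [Equiv.symm_apply_apply]; rfl

theorem π1_κ1 (u : Fin (2 * g) → ℚ) : π1 g g' (κ1 g g' u) = u := by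
  funext j; rw [π1_apply, κ1_inl]

theorem π2_κ1 (u : Fin (2 * g) → ℚ) : π2 g g' (κ1 g g' u) = 0 := by
  funext j; rw [π2_apply, κ1_inr]; rfl

theorem π1_κ2 (u : Fin (2 * g') → ℚ) : π1 g g' (κ2 g g' u) = 0 := by
  funext j; rw [π1_apply, κ2_inl]; rfl

theorem π2_κ2 (u : Fin (2 * g') → ℚ) : π2 g g' (κ2 g g' u) = u := by
  funext j; rw [π2_apply, κ2_inr]

theorem κ_π (w : Fin (2 * (g + g')) → ℚ) : κ1 g g' (π1 g g' w) + κ2 g g' (π2 g g' w) = w := by
  funext j
  obtain ⟨s, rfl⟩ := (ix g g').surjective j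
  rcases s with s | s
  · rw [Pi.add_apply, κ1_inl, κ2_inl, add_zero, π1_apply]
  · rw [Pi.add_apply, κ1_inr, κ2_inr, zero_add, π2_apply]

theorem ext_π {u v : Fin (2 * (g + g')) → ℚ} (h1 : π1 g g' u = π1 g g' v)
    (h2 : π2 g g' u = π2 g g' v) : u = v := by
  rw [← κ_π u, ← κ_π v, h1, h2]

variable (A : AbVar g) (B : AbVar g')

theorem prod_per (w : (prod A B).H1) :
    (prod A B).per w = Fin.append (A.per (π1 g g' w)) (B.per (π2 g g' w)) := by
  rw [AbVar.per_apply, AbVar.per_apply, AbVar.per_apply, sum_ix]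
  have h1 : ∀ j, (prod A B).lam (ix g g' (Sum.inl j)) = Fin.append (A.lam j) 0 := plam_left A B
  have h2 : ∀ j, (prod A B).lam (ix g g' (Sum.inr j)) = Fin.append 0 (B.lam j) := plam_right A B
  simp only [h1, h2]
  funext i
  rw [Pi.add_apply, Finset.sum_apply, Finset.sum_apply]
  induction i using Fin.addCases with
  | left i =>
    simp only [Pi.smul_apply, Fin.append_left, Pi.zero_apply, smul_zero, Finset.sum_const_zero,
      add_zero, Finset.sum_apply]
    rfl
  | right i =>
    simp only [Pi.smul_apply, Fin.append_right, Pi.zero_apply, smul_zero, Finset.sum_const_zero,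
      zero_add, Finset.sum_apply]
    rfl

theorem prod_eta (w : (prod A B).H1) :
    (prod A B).eta w = Fin.append (A.eta (π1 g g' w)) (B.eta (π2 g g' w)) := by
  rw [AbVar.eta_apply, AbVar.eta_apply, AbVar.eta_apply, sum_ix]
  have h1 : ∀ j, (prod A B).η (ix g g' (Sum.inl j)) = Fin.append (A.η j) 0 := peta_left A B
  have h2 : ∀ j, (prod A B).η (ix g g' (Sum.inr j)) = Fin.append 0 (B.η j) := peta_right A B
  simp only [h1, h2]
  funext i
  rw [Pi.add_apply, Finset.sum_apply, Finset.sum_apply]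
  induction i using Fin.addCases with
  | left i =>
    simp only [Pi.smul_apply, Fin.append_left, Pi.zero_apply, smul_zero, Finset.sum_const_zero,
      add_zero, Finset.sum_apply]
    rfl
  | right i =>
    simp only [Pi.smul_apply, Fin.append_right, Pi.zero_apply, smul_zero, Finset.sum_const_zero,
      zero_add, Finset.sum_apply]
    rfl

/-- the indices of the de Rham basis of the product -/
def eA (g g' : ℕ) : Fin g ⊕ Fin g → Fin (g + g') ⊕ Fin (g + g') :=
  Sum.map (Fin.castAdd g') (Fin.castAdd g')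

def eB (g g' : ℕ) : Fin g' ⊕ Fin g' → Fin (g + g') ⊕ Fin (g + g') :=
  Sum.map (Fin.natAdd g) (Fin.natAdd g)

theorem dR_eA (i : Fin g ⊕ Fin g) (w : (prod A B).H1) :
    (prod A B).dR (eA g g' i) w = A.dR i (π1 g g' w) := by
  rcases i with i | i
  · change (prod A B).per w (Fin.castAdd g' i) = A.per (π1 g g' w) i
    rw [prod_per, Fin.append_left]
  · change (prod A B).eta w (Fin.castAdd g' i) = A.eta (π1 g g' w) i
    rw [prod_eta, Fin.append_left]

theorem dR_eB (i : Fin g' ⊕ Fin g') (w : (prod A B).H1) :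
    (prod A B).dR (eB g g' i) w = B.dR i (π2 g g' w) := by
  rcases i with i | i
  · change (prod A B).per w (Fin.natAdd g i) = B.per (π2 g g' w) i
    rw [prod_per, Fin.append_right]
  · change (prod A B).eta w (Fin.natAdd g i) = B.eta (π2 g g' w) i
    rw [prod_eta, Fin.append_right]

theorem sum_e {M : Type} [AddCommMonoid M] (f : Fin (g + g') ⊕ Fin (g + g') → M) :
    ∑ i, f i = ∑ i, f (eA g g' i) + ∑ i, f (eB g g' i) := by
  rw [Fintype.sum_sum_type, Fintype.sum_sum_type, Fintype.sum_sum_type, Fin.sum_univ_add,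
    Fin.sum_univ_add]
  change _ = (∑ i, f (Sum.inl (Fin.castAdd g' i)) + ∑ i, f (Sum.inr (Fin.castAdd g' i))) +
    (∑ i, f (Sum.inl (Fin.natAdd g i)) + ∑ i, f (Sum.inr (Fin.natAdd g i)))
  abel

theorem e_cases {p : Fin (g + g') ⊕ Fin (g + g') → Prop} (h1 : ∀ i, p (eA g g' i))
    (h2 : ∀ i, p (eB g g' i)) (i : Fin (g + g') ⊕ Fin (g + g')) : p i := by
  rcases i with i | i
  · induction i using Fin.addCases with
    | left i => exact h1 (Sum.inl i)
    | right i => exact h2 (Sum.inl i)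
  · induction i using Fin.addCases with
    | left i => exact h1 (Sum.inr i)
    | right i => exact h2 (Sum.inr i)

theorem eA_inj : Function.Injective (eA g g') :=
  Function.Injective.sumMap (Fin.castAdd_injective _ _) (Fin.castAdd_injective _ _)

theorem eB_inj : Function.Injective (eB g g') :=
  Function.Injective.sumMap (Fin.natAdd_injective _ _) (Fin.natAdd_injective _ _)

variable {A B}

theorem hm_π1 : IsHm (prod A B) A (π1 g g') := by
  classical
  refine ⟨fun i j => if j = eA g g' i then 1 else 0, fun i u => ?_⟩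
  rw [Finset.sum_eq_single (eA g g' i)]
  · beta_reduce
    rw [if_pos rfl, map_one, one_mul, dR_eA]
  · intro j _ hj
    beta_reduce
    rw [if_neg hj, map_zero, zero_mul]
  · intro h; exact absurd (Finset.mem_univ _) h

theorem hm_π2 : IsHm (prod A B) B (π2 g g') := by
  classical
  refine ⟨fun i j => if j = eB g g' i then 1 else 0, fun i u => ?_⟩
  rw [Finset.sum_eq_single (eB g g' i)]
  · beta_reduce
    rw [if_pos rfl, map_one, one_mul, dR_eB]
  · intro j _ hj
    beta_reduce
    rw [if_neg hj, map_zero, zero_mul]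
  · intro h; exact absurd (Finset.mem_univ _) h

theorem hm_κ1 : IsHm A (prod A B) (κ1 g g') := by
  classical
  refine ⟨fun i j => if i = eA g g' j then 1 else 0, fun i u => ?_⟩
  refine e_cases (p := fun i => (prod A B).dR i (κ1 g g' u) =
    ∑ j, algebraMap QBar ℂ (if i = eA g g' j then 1 else 0) * A.dR j u) ?_ ?_ i
  · intro i
    rw [dR_eA, π1_κ1, Finset.sum_eq_single i, if_pos rfl, map_one, one_mul]
    · intro j _ hj
      rw [if_neg (fun h => hj (eA_inj h).symm), map_zero, zero_mul]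
    · intro h; exact absurd (Finset.mem_univ _) h
  · intro i
    rw [dR_eB, π2_κ1, map_zero]
    symm
    refine Finset.sum_eq_zero fun j _ => ?_
    rw [if_neg, map_zero, zero_mul]
    intro h
    rcases i with i | i <;> rcases j with j | j
    · have h1 := congrArg Fin.val (Sum.inl.inj h)
      rw [Fin.val_natAdd, Fin.val_castAdd] at h1
      omega
    · exact absurd h (by simp [eA, eB])
    · exact absurd h (by simp [eA, eB])
    · have h1 := congrArg Fin.val (Sum.inr.inj h)
      rw [Fin.val_natAdd, Fin.val_castAdd] at h1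
      omega

theorem hm_κ2 : IsHm B (prod A B) (κ2 g g') := by
  classical
  refine ⟨fun i j => if i = eB g g' j then 1 else 0, fun i u => ?_⟩
  refine e_cases (p := fun i => (prod A B).dR i (κ2 g g' u) =
    ∑ j, algebraMap QBar ℂ (if i = eB g g' j then 1 else 0) * B.dR j u) ?_ ?_ i
  · intro i
    rw [dR_eA, π1_κ2, map_zero]
    symm
    refine Finset.sum_eq_zero fun j _ => ?_
    rw [if_neg, map_zero, zero_mul]
    intro h
    rcases i with i | i <;> rcases j with j | j
    · have h1 := congrArg Fin.val (Sum.inl.inj h)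
      rw [Fin.val_natAdd, Fin.val_castAdd] at h1
      omega
    · exact absurd h (by simp [eA, eB])
    · exact absurd h (by simp [eA, eB])
    · have h1 := congrArg Fin.val (Sum.inr.inj h)
      rw [Fin.val_natAdd, Fin.val_castAdd] at h1
      omega
  · intro i
    rw [dR_eB, π2_κ2, Finset.sum_eq_single i, if_pos rfl, map_one, one_mul]
    · intro j _ hj
      rw [if_neg (fun h => hj (eB_inj h).symm), map_zero, zero_mul]
    · intro h; exact absurd (Finset.mem_univ _) h

theorem IsHm.comp {g'' : ℕ} {C : AbVar g''} {f : A.H1 →ₗ[ℚ] B.H1} {h : B.H1 →ₗ[ℚ] C.H1}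
    (hh : IsHm B C h) (hf : IsHm A B f) : IsHm A C (h.comp f) := by
  obtain ⟨a, ha⟩ := hf
  obtain ⟨b, hb⟩ := hh
  refine ⟨fun i j => ∑ k, b i k * a k j, fun i u => ?_⟩
  rw [LinearMap.comp_apply, hb]
  simp only [ha, map_sum, map_mul, Finset.mul_sum, Finset.sum_mul]
  rw [Finset.sum_comm]
  exact Finset.sum_congr rfl fun j _ => Finset.sum_congr rfl fun k _ => by ring

theorem isHm_end {P : Module.End ℚ A.H1} : IsHm A A P ↔ P ∈ A.EA := A.mem_EA.symm

variable (A B)

/-- The Riemann form of the product. -/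
theorem prod_om (u v : (prod A B).H1) : (prod A B).om u v =
    A.om (π1 g g' u) (π1 g g' v) + B.om (π2 g g' u) (π2 g g' v) := by
  have h1 : (((prod A B).om u v : ℚ) : ℂ) = ((A.om (π1 g g' u) (π1 g g' v) +
      B.om (π2 g g' u) (π2 g g' v) : ℚ) : ℂ) := by
    have e1 := (prod A B).E_coe ((prod A B).per u) ((prod A B).per v)
    have e2 := A.E_coe (A.per (π1 g g' u)) (A.per (π1 g g' v))
    have e3 := B.E_coe (B.per (π2 g g' u)) (B.per (π2 g g' v))
    rw [← AbVar.om_coe] at e1 e2 e3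
    have e4 : riemannForm (prod A B).lam (prod A B).η ((prod A B).per u) ((prod A B).per v) =
      riemannForm A.lam A.η (p1 g g' ((prod A B).per u)) (p1 g g' ((prod A B).per v)) +
      riemannForm B.lam B.η (p2 g g' ((prod A B).per u)) (p2 g g' ((prod A B).per v)) :=
      rf_prod _ _
    rw [e4, prod_per, prod_per, p1_append, p1_append, p2_append, p2_append, ← e2, ← e3] at e1
    push_cast
    push_cast at e1
    exact e1
  exact_mod_cast h1

variable {A B}

/-- The endomorphisms of the product of abelian varieties without homomorphisms are symmetric if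
those of the factors are. -/
theorem sym_prod (hA : ∀ P ∈ A.EA, ∀ u v, A.om (P u) v = A.om u (P v))
    (hB : ∀ P ∈ B.EA, ∀ u v, B.om (P u) v = B.om u (P v))
    (h12 : ∀ f, IsHm A B f → f = 0) (h21 : ∀ f, IsHm B A f → f = 0) :
    ∀ P ∈ (prod A B).EA, ∀ u v, (prod A B).om (P u) v = (prod A B).om u (P v) := by
  intro P hP u v
  have hP' : IsHm (prod A B) (prod A B) P := isHm_end.2 hP
  have a1 := (isHm_end (P := (π1 g g').comp (P.comp (κ1 g g')))).1
    (IsHm.comp hm_π1 (hP'.comp hm_κ1))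
  have a2 := (isHm_end (P := (π2 g g').comp (P.comp (κ2 g g')))).1
    (IsHm.comp hm_π2 (hP'.comp hm_κ2))
  have a3 := h12 _ (IsHm.comp (hm_π2 (A := A) (B := B)) (hP'.comp hm_κ1))
  have a4 := h21 _ (IsHm.comp (hm_π1 (A := A) (B := B)) (hP'.comp hm_κ2))
  have e1 : ∀ w, π1 g g' (P w) = ((π1 g g').comp (P.comp (κ1 g g'))) (π1 g g' w) := by
    intro w
    conv_lhs => rw [← κ_π w]
    have h := LinearMap.congr_fun a4 (π2 g g' w)
    rw [map_add, map_add]
    have h' : π1 g g' (P (κ2 g g' (π2 g g' w))) = 0 := h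
    rw [h', add_zero]
    rfl
  have e2 : ∀ w, π2 g g' (P w) = ((π2 g g').comp (P.comp (κ2 g g'))) (π2 g g' w) := by
    intro w
    conv_lhs => rw [← κ_π w]
    have h := LinearMap.congr_fun a3 (π1 g g' w)
    rw [map_add, map_add]
    have h' : π2 g g' (P (κ1 g g' (π1 g g' w))) = 0 := h
    rw [h', zero_add]
    rfl
  rw [prod_om, prod_om, e1, e2, e1, e2]
  exact congrArg₂ (· + ·) (hA _ a1 _ _) (hB _ a2 _ _)

theorem aU_hom {f : A.H1 →ₗ[ℚ] B.H1} (hf : IsHm A B f) {ℓ : RU} (hℓ : ℓ ∈ LU) (u : A.H1) :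
    aU B ℓ (f u) = f (aU A ℓ u) := LU_hom hf.isH hℓ u

/-- Homomorphisms commute with the Lie algebra. -/
theorem nU_hom {f : A.H1 →ₗ[ℚ] B.H1} (hf : IsHm A B f) {ℓ : RU} (hℓ : ℓ ∈ LU) (u : A.H1) :
    nU B ℓ (f u) = f (nU A ℓ u) := by
  rw [nU_apply, nU_apply, map_sub, map_smul, aU_hom hf hℓ]

/-- The elements of the universal Lie algebra act on the product by blocks. -/
theorem nU_prod {ℓ : RU} (hℓ : ℓ ∈ LU) (u : (prod A B).H1) :
    nU (prod A B) ℓ u = κ1 g g' (nU A ℓ (π1 g g' u)) + κ2 g g' (nU B ℓ (π2 g g' u)) := by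
  rw [nU_hom hm_π1 hℓ, nU_hom hm_π2 hℓ]
  exact (κ_π _).symm

end

end Pool.Agent.V5helper88.ID
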