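import Pool.Agent.V5helper88.ID.I2
import Pool.Agent.V5helper88.HR.G19

/-!
The system given by a full Lie algebra.
-/

set_option autoImplicit false

namespace Pool.Agent.V5helper88.ID

open Matrix Module Function Pool.Agent.Y102 Pool.Agent.W516.DR Pool.Agent.H204R3.GP
  Pool.Agent.W516.KC Pool.Agent.H204R3.SP Pool.Agent.N192.GP Pool.Agent.V5helper88.HR
  Pool.Agent.N208.BT

noncomputable section

variable {g : ℕ} {A : AbVar g} {𝔥 : Submodule ℚ (Module.End ℚ A.H1)}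
  {b : Basis (Fin (2 * g)) ℚ A.H1}

/-- The complex matrices of the elements of a Lie algebra. -/
def HF (b : Basis (Fin (2 * g)) ℚ A.H1) (𝔥 : Submodule ℚ (Module.End ℚ A.H1)) :
    Submodule ℂ (Matrix (Fin (2 * g)) (Fin (2 * g)) ℂ) :=
  Submodule.span ℂ {Z | ∃ X ∈ 𝔥, Z = cc (mt b X)}

theorem HF_LA : HF b A.LA = HH b := rfl

theorem cc_mem {X : Module.End ℚ A.H1} (hX : X ∈ 𝔥) : cc (mt b X) ∈ HF b 𝔥 :=
  Submodule.subset_span ⟨X, hX, rfl⟩

/-- Induction on the elements. -/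
theorem HF_ind {p : Matrix (Fin (2 * g)) (Fin (2 * g)) ℂ → Prop}
    (h1 : ∀ X ∈ 𝔥, p (cc (mt b X))) (h0 : p 0) (ha : ∀ x y, p x → p y → p (x + y))
    (hs : ∀ (z : ℂ) x, p x → p (z • x)) {X : Matrix (Fin (2 * g)) (Fin (2 * g)) ℂ}
    (hX : X ∈ HF b 𝔥) : p X := by
  refine Submodule.span_induction (p := fun x _ => p x) ?_ h0 (fun x y _ _ hx hy => ha x y hx hy)
    (fun z x _ hx => hs z x hx) hX
  rintro _ ⟨X, hX, rfl⟩
  exact h1 X hX

theorem cm_of {P : Matrix (Fin (2 * g)) (Fin (2 * g)) ℂ}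
    (h : ∀ X ∈ 𝔥, P * cc (mt b X) = cc (mt b X) * P) : Cm (HF b 𝔥) P := by
  intro Z hZ
  refine HF_ind (p := fun Z => P * Z = Z * P) h ?_ ?_ ?_ hZ
  · rw [mul_zero, zero_mul]
  · intro x y hx hy
    rw [mul_add, add_mul, hx, hy]
  · intro z x hx
    rw [mul_smul_comm, smul_mul_assoc, hx]

/-- The components of an element of the commutant are endomorphisms. -/
theorem comp_full (h : A.Full 𝔥) {P : Matrix (Fin (2 * g)) (Fin (2 * g)) ℂ}
    (hP : Cm (HF b 𝔥) P) (l : ℂ →ₗ[ℚ] ℚ) : (mt b).symm (lm l P) ∈ A.EA := by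
  have h1 : ∀ X ∈ 𝔥, X * (mt b).symm (lm l P) = (mt b).symm (lm l P) * X := by
    intro X hX
    apply (mt b).injective
    rw [map_mul, map_mul, AlgEquiv.apply_symm_apply, ← lm_cc_mul, ← lm_mul_cc,
      hP _ (cc_mem hX)]
  exact fun X hX => h.comm _ h1 X (A.LA_le_NA hX)

theorem cm_of_comp {P : Matrix (Fin (2 * g)) (Fin (2 * g)) ℂ}
    (hP : ∀ l : ℂ →ₗ[ℚ] ℚ, (mt b).symm (lm l P) ∈ A.EA) (h : 𝔥 ≤ A.NA) : Cm (HF b 𝔥) P := by
  refine cm_of fun X hX => lm_ext fun l => ?_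
  rw [lm_mul_cc, lm_cc_mul]
  have h1 := A.NA_comm (h hX) (hP l)
  have h2 := congrArg (mt b) h1
  rw [map_mul, map_mul, AlgEquiv.apply_symm_apply] at h2
  exact h2.symm

theorem cm_full (h : A.Full 𝔥) {P : Matrix (Fin (2 * g)) (Fin (2 * g)) ℂ} :
    Cm (HF b 𝔥) P ↔ Cm (HH b) P :=
  ⟨fun hP => cm_of_comp (𝔥 := A.LA) (comp_full h hP) A.LA_le_NA,
    fun hP => cm_of_comp (comp_full A.full_LA hP) h.le⟩

/-- The elements of the bicommutant preserve the stable subspaces. -/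
theorem stable_bi (h : A.Full 𝔥) {Y : Submodule ℂ (Fin (2 * g) → ℂ)} (hY : Stable (HF b 𝔥) Y)
    {X : Module.End ℚ A.H1} (hX : X ∈ A.NA) : ∀ v ∈ Y, cc (mt b X) *ᵥ v ∈ Y := by
  refine Algebra.adjoin_induction (p := fun X _ => ∀ v ∈ Y, cc (mt b X) *ᵥ v ∈ Y)
    ?_ ?_ ?_ ?_ (h.adjoin hX)
  · intro X hX v hv
    exact hY _ (cc_mem hX) v hv
  · intro r v hv
    rw [AlgEquiv.commutes, Algebra.algebraMap_eq_smul_one]
    have h2 : cc (r • (1 : Matrix (Fin (2 * g)) (Fin (2 * g)) ℚ))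
        = (algebraMap ℚ ℂ r) • (1 : Matrix (Fin (2 * g)) (Fin (2 * g)) ℂ) := by
      rw [← cc_one]
      ext i j
      simp only [cc, Matrix.map_apply, Matrix.smul_apply, smul_eq_mul, map_mul]
    rw [h2, smul_mulVec, one_mulVec]
    exact Submodule.smul_mem _ _ hv
  · intro X Z _ _ hX hZ v hv
    rw [map_add, cc_add, add_mulVec]
    exact Submodule.add_mem _ (hX v hv) (hZ v hv)
  · intro X Z _ _ hX hZ v hv
    rw [map_mul, cc_mul, ← mulVec_mulVec]
    exact hX _ (hZ v hv)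

/-- The stable subspaces of all full Lie algebras are the same. -/
theorem stable_full (h : A.Full 𝔥) {𝔥' : Submodule ℚ (Module.End ℚ A.H1)} (h' : 𝔥' ≤ A.NA)
    {Y : Submodule ℂ (Fin (2 * g) → ℂ)} (hY : Stable (HF b 𝔥) Y) : Stable (HF b 𝔥') Y := by
  intro Z hZ
  refine HF_ind (p := fun Z => ∀ v ∈ Y, Z *ᵥ v ∈ Y) (fun X hX => stable_bi h hY (h' hX))
    ?_ ?_ ?_ hZ
  · intro v _
    rw [zero_mulVec]; exact Y.zero_mem
  · intro x y hx hy v hv
    rw [add_mulVec]; exact Y.add_mem (hx v hv) (hy v hv)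
  · intro z x hx v hv
    rw [smul_mulVec]; exact Y.smul_mem z (hx v hv)

theorem block_full (h : A.Full 𝔥) {Y : Submodule ℂ (Fin (2 * g) → ℂ)} :
    Block (HF b 𝔥) Y ↔ Block (HH b) Y := by
  constructor
  · intro hY
    refine ⟨stable_full h A.LA_le_NA hY.st, hY.ne, fun Z hZ => hY.min Z ?_⟩
    exact stable_full (𝔥 := A.LA) A.full_LA h.le hZ
  · intro hY
    refine ⟨stable_full (𝔥 := A.LA) A.full_LA h.le hY.st, hY.ne, fun Z hZ => hY.min Z ?_⟩
    exact stable_full h A.LA_le_NA hZ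

theorem HF_br (h : A.Full 𝔥) : ∀ X ∈ HF b 𝔥, ∀ Y ∈ HF b 𝔥, X * Y - Y * X ∈ HF b 𝔥 := by
  intro X hX Y hY
  refine HF_ind (p := fun X => X * Y - Y * X ∈ HF b 𝔥) ?_ ?_ ?_ ?_ hX
  · intro X hX
    refine HF_ind (p := fun Y => cc (mt b X) * Y - Y * cc (mt b X) ∈ HF b 𝔥) ?_ ?_ ?_ ?_ hY
    · intro Y hY
      rw [← cc_mul, ← cc_mul, ← cc_sub, ← map_mul, ← map_mul, ← map_sub]
      exact cc_mem (h.br X hX Y hY)
    · rw [mul_zero, zero_mul, sub_zero]; exact Submodule.zero_mem _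
    · intro x y hx hy
      have h1 : cc (mt b X) * (x + y) - (x + y) * cc (mt b X)
        = (cc (mt b X) * x - x * cc (mt b X)) + (cc (mt b X) * y - y * cc (mt b X)) := by
        noncomm_ring
      rw [h1]; exact Submodule.add_mem _ hx hy
    · intro z x hx
      rw [mul_smul_comm, smul_mul_assoc, ← smul_sub]; exact Submodule.smul_mem _ _ hx
  · rw [mul_zero, zero_mul, sub_zero]; exact Submodule.zero_mem _
  · intro x y hx hy
    have h1 : (x + y) * Y - Y * (x + y) = (x * Y - Y * x) + (y * Y - Y * y) := by noncomm_ring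
    rw [h1]; exact Submodule.add_mem _ hx hy
  · intro z x hx
    rw [mul_smul_comm, smul_mul_assoc, ← smul_sub]; exact Submodule.smul_mem _ _ hx

/-- The system of a full Lie algebra. -/
theorem sys_full (b : Basis (Fin (2 * g)) ℚ A.H1)
    (hs : ∀ P ∈ A.EA, ∀ u v, A.om (P u) v = A.om u (P v)) (h : A.Full 𝔥) :
    Sys (cc (Om b)) (HF b 𝔥) := by
  have h0 := sys_of_sym b hs
  refine ⟨h0.alt, h0.nd, HF_br h, ?_, ?_, ?_, ?_⟩
  · intro X hX
    refine HF_ind (p := fun X => Xᵀ * cc (Om b) = -(cc (Om b) * X)) ?_ ?_ ?_ ?_ hX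
    · intro X hX
      rw [← cc_tr, ← cc_mul, ← cc_mul, mt_skew (A.NA_skew (h.le hX)), cc_neg]
    · rw [transpose_zero, zero_mul, mul_zero, neg_zero]
    · intro x y hx hy
      rw [transpose_add, add_mul, mul_add, hx, hy, neg_add]
    · intro z x hx
      rw [transpose_smul, smul_mul_assoc, hx, mul_smul_comm, smul_neg]
  · intro X hX h1
    exact span_trace (b := b) (L := 𝔥) h.trace hX h1
  · intro P hP
    exact h0.sy P ((cm_full h).1 hP)
  · intro Y hY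
    obtain ⟨P, hP, h1, h2⟩ := h0.proj Y (stable_full h A.LA_le_NA hY)
    exact ⟨P, (cm_full h).2 hP, h1, h2⟩

end

end Pool.Agent.V5helper88.ID
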