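import Pool.Agent.V5helper88.HR.G18

/-!
The Lie algebra is the direct sum of its parts on two complementary stable subspaces, if all blocks
are of the same dimension.
-/

set_option autoImplicit false

namespace Pool.Agent.V5helper88.ID

open Matrix Module Pool.Agent.V5helper88.HR

variable {ι : Type} [Fintype ι] [DecidableEq ι] {Ω : Matrix ι ι ℂ}
  {H : Submodule ℂ (Matrix ι ι ℂ)}

theorem tr_inv (X Y Z : Matrix ι ι ℂ) :
    trace ((X * Y - Y * X) * Z) = trace (X * (Y * Z - Z * Y)) := by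
  rw [sub_mul, mul_sub, trace_sub, trace_sub, mul_assoc, ← mul_assoc X Z Y,
    trace_mul_comm (X * Z) Y, ← mul_assoc Y X Z, mul_assoc Y X Z]

/-- An ideal which contains all minimal ideals is everything. -/
theorem ideal_top (hS : Sys Ω H) {s : Submodule ℂ (Matrix ι ι ℂ)} (hs : Ideal H s)
    (h : ∀ a, MinId H a → a ≤ s) : s = H := by
  let b : Submodule ℂ (Matrix ι ι ℂ) :=
    { carrier := {X | X ∈ H ∧ ∀ Z ∈ s, trace (X * Z) = 0}
      zero_mem' := ⟨H.zero_mem, fun Z _ => by rw [zero_mul, trace_zero]⟩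
      add_mem' := fun {X Z} hX hZ => ⟨H.add_mem hX.1 hZ.1, fun W hW => by
        rw [add_mul, trace_add, hX.2 W hW, hZ.2 W hW, add_zero]⟩
      smul_mem' := fun z X hX => ⟨H.smul_mem z hX.1, fun W hW => by
        rw [smul_mul_assoc, trace_smul, hX.2 W hW, smul_zero]⟩ }
  have hb : Ideal H b := by
    refine ⟨fun X hX => hX.1, fun X hX Z hZ => ⟨hS.br X hX Z hZ.1, fun W hW => ?_⟩⟩
    have h1 : X * Z - Z * X = -(Z * X - X * Z) := by abel
    rw [h1, neg_mul, trace_neg, tr_inv, hZ.2 _ (hs.br X hX W hW), neg_zero]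
  by_cases hb0 : b = ⊥
  · let T : H →ₗ[ℂ] Module.Dual ℂ s :=
      { toFun := fun X =>
          { toFun := fun Z => trace (X.1 * Z.1)
            map_add' := fun Z W => by rw [Submodule.coe_add, mul_add, trace_add]
            map_smul' := fun z Z => by
              rw [Submodule.coe_smul, mul_smul_comm, trace_smul, RingHom.id_apply] }
        map_add' := fun X X' => by
          refine LinearMap.ext fun Z => ?_
          change trace ((X.1 + X'.1) * Z.1) = trace (X.1 * Z.1) + trace (X'.1 * Z.1)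
          rw [add_mul, trace_add]
        map_smul' := fun z X => by
          refine LinearMap.ext fun Z => ?_
          change trace ((z • X.1) * Z.1) = z • trace (X.1 * Z.1)
          rw [smul_mul_assoc, trace_smul] }
    have hT : Function.Injective T := by
      rw [injective_iff_map_eq_zero]
      intro X hX
      have h1 : X.1 ∈ b := ⟨X.2, fun Z hZ => LinearMap.congr_fun hX ⟨Z, hZ⟩⟩
      rw [hb0, Submodule.mem_bot] at h1
      exact Subtype.ext h1
    have h1 := LinearMap.finrank_le_finrank_of_injective hT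
    rw [Subspace.dual_finrank_eq] at h1
    exact Submodule.eq_of_le_of_finrank_le hs.le h1
  · exfalso
    obtain ⟨a, hab, ha⟩ := exists_minId hb hb0
    apply ha.ne
    rw [Submodule.eq_bot_iff]
    intro X hX
    exact ha.nd hS hX fun Z hZ => (hab hX).2 Z (h a ha hZ)

/-- All blocks are of the dimension `m`. -/
def AllDim (H : Submodule ℂ (Matrix ι ι ℂ)) (m : ℕ) : Prop := ∀ Y, Block H Y → finrank ℂ Y = m

/-- A minimal ideal acts on one block only. -/
theorem one_block (hS : Sys Ω H) {m : ℕ} (hm : m = 2 ∨ m = 4) (hd : AllDim H m)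
    {a : Submodule ℂ (Matrix ι ι ℂ)} (ha : MinId H a) {Y₁ Y₂ : Submodule ℂ (ι → ℂ)}
    (hY₁ : Block H Y₁) (hY₂ : Block H Y₂) {U V : Matrix ι ι ℂ} (hU : U ∈ a) (hV : V ∈ a)
    {u v : ι → ℂ} (hu : u ∈ Y₁) (hv : v ∈ Y₂) (hUu : U *ᵥ u ≠ 0) (hVv : V *ᵥ v ≠ 0) :
    Y₁ = Y₂ := by
  by_contra hne
  have hd4 : ∀ Y, Block H Y → finrank ℂ Y ≤ 4 := by
    intro Y hY
    rw [hd Y hY]
    rcases hm with rfl | rfl <;> norm_num
  obtain ⟨n, x, x', hD, hn⟩ := exists_dual hS ha
  obtain ⟨k, hk⟩ := hD.casimir ha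
  have hk0 : k ≠ 0 := k_ne hS hd4 ha hD hn hk
  have hfr : ∀ {κ : Type} [Fintype κ] [DecidableEq κ] {K : Matrix κ κ ℂ} {B : Matrix ι κ ℂ}
      (_ : Frame Ω H K B) {Y : Submodule ℂ (ι → ℂ)} (_ : LinearMap.range B.mulVecLin = Y),
      finrank ℂ Y = Fintype.card κ := by
    intro κ _ _ K B hB Y hr
    rw [← hr]
    have hinj : Function.Injective B.mulVecLin := by
      rw [injective_iff_map_eq_zero]
      intro x hx
      rw [mulVecLin_apply] at hx
      have h1 : (Bᵀ * Ω * B) *ᵥ x = 0 := by rw [← mulVec_mulVec, hx, mulVec_zero]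
      rw [hB.gram] at h1
      have h2 : (K * K) *ᵥ x = 0 := by rw [← mulVec_mulVec, h1, mulVec_zero]
      rw [hB.ksq, neg_mulVec, one_mulVec, neg_eq_zero] at h2
      exact h2
    rw [LinearMap.finrank_range_of_inj hinj, Module.finrank_fintype_fun_eq_card]
  rcases exists_frame hS hY₁.st hY₁.ne (hd4 _ hY₁) with ⟨B₁, h₁, hr₁⟩ | ⟨B₁, h₁, hr₁⟩
  · have e1 := hfr h₁ hr₁
    rcases exists_frame hS hY₂.st hY₂.ne (hd4 _ hY₂) with ⟨B₂, h₂, hr₂⟩ | ⟨B₂, h₂, hr₂⟩
    · have hu' := hu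
      have hv' := hv
      rw [← hr₁] at hu'
      rw [← hr₂] at hv'
      exact pair22 hS ha hD hn hk hk0 h₁ h₂ hY₁ hY₂ hne hr₁ hr₂ hU hV
        (rho_ne h₁ (ha.id.le hU) hu' hUu) (rho_ne h₂ (ha.id.le hV) hv' hVv)
    · have e2 := hfr h₂ hr₂
      rw [hd _ hY₁, Fintype.card_fin] at e1
      rw [hd _ hY₂, Fintype.card_fin] at e2
      omega
  · have e1 := hfr h₁ hr₁
    rcases exists_frame hS hY₂.st hY₂.ne (hd4 _ hY₂) with ⟨B₂, h₂, hr₂⟩ | ⟨B₂, h₂, hr₂⟩
    · have e2 := hfr h₂ hr₂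
      rw [hd _ hY₁, Fintype.card_fin] at e1
      rw [hd _ hY₂, Fintype.card_fin] at e2
      omega
    · have hu' := hu
      have hv' := hv
      rw [← hr₁] at hu'
      rw [← hr₂] at hv'
      exact pair44 hS ha hD hn hk hk0 h₁ h₂ hY₁ hY₂ hne hr₁ hr₂ hU hV
        (rho_ne h₁ (ha.id.le hU) hu' hUu) (rho_ne h₂ (ha.id.le hV) hv' hVv)

/-- A matrix which is not zero is not zero on some block. -/
theorem exists_on_block (hS : Sys Ω H) {U : Matrix ι ι ℂ} (hU : U ≠ 0) :
    ∃ Y, Block H Y ∧ ∃ v ∈ Y, U *ᵥ v ≠ 0 := by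
  by_contra hcon
  push Not at hcon
  apply hU
  have h1 : Submodule.span ℂ (blockSet H) ≤ LinearMap.ker (Matrix.toLin' U) := by
    refine Submodule.span_le.2 ?_
    rintro v ⟨Y, hY, hv⟩
    rw [SetLike.mem_coe, LinearMap.mem_ker, toLin'_apply]
    exact hcon Y hY v hv
  rw [span_blocks hS, top_le_iff, LinearMap.ker_eq_top] at h1
  exact (Matrix.toLin').injective (by rw [h1, map_zero])

/-- **The splitting.** -/
theorem split_ideal (hS : Sys Ω H) {m : ℕ} (hm : m = 2 ∨ m = 4) (hd : AllDim H m)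
    {E : Matrix ι ι ℂ} (hE : Cm H E) (hEE : E * E = E) : ∀ X ∈ H, X * E ∈ H := by
  let s : Submodule ℂ (Matrix ι ι ℂ) :=
    { carrier := {X | X ∈ H ∧ X * E ∈ H}
      zero_mem' := ⟨H.zero_mem, by rw [zero_mul]; exact H.zero_mem⟩
      add_mem' := fun {X Z} hX hZ => ⟨H.add_mem hX.1 hZ.1, by
        rw [add_mul]; exact H.add_mem hX.2 hZ.2⟩
      smul_mem' := fun z X hX => ⟨H.smul_mem z hX.1, by
        rw [smul_mul_assoc]; exact H.smul_mem z hX.2⟩ }
  have hs : Ideal H s := by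
    refine ⟨fun X hX => hX.1, fun X hX Z hZ => ⟨hS.br X hX Z hZ.1, ?_⟩⟩
    have h1 : (X * Z - Z * X) * E = X * (Z * E) - (Z * E) * X := by
      rw [sub_mul, mul_assoc, mul_assoc Z X E, ← hE X hX, ← mul_assoc Z E X]
    rw [h1]
    exact hS.br X hX _ hZ.2
  have h1 : s = H := by
    refine ideal_top hS hs fun a ha => ?_
    -- the ideal acts trivially on one of the two parts
    by_cases h0 : ∀ U ∈ a, U * E = 0
    · intro U hU
      exact ⟨ha.id.le hU, by rw [h0 U hU]; exact H.zero_mem⟩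
    by_cases h2 : ∀ V ∈ a, V * (1 - E) = 0
    · intro U hU
      refine ⟨ha.id.le hU, ?_⟩
      have h3 := h2 U hU
      rw [mul_sub, mul_one, sub_eq_zero] at h3
      rw [← h3]
      exact ha.id.le hU
    exfalso
    push Not at h0 h2
    obtain ⟨U, hU, hU0⟩ := h0
    obtain ⟨V, hV, hV0⟩ := h2
    obtain ⟨Y₁, hY₁, u, hu, hu0⟩ := exists_on_block hS hU0
    obtain ⟨Y₂, hY₂, v, hv, hv0⟩ := exists_on_block hS hV0
    obtain ⟨z, hz⟩ := hY₁.scalar hS hE
    obtain ⟨w, hw⟩ := hY₂.scalar hS hE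
    have e1 : U *ᵥ u ≠ 0 ∧ z = 1 := by
      rw [← mulVec_mulVec, hz u hu, mulVec_smul] at hu0
      have h3 : z ≠ 0 := fun h => hu0 (by rw [h, zero_smul])
      have h4 : U *ᵥ u ≠ 0 := fun h => hu0 (by rw [h, smul_zero])
      refine ⟨h4, ?_⟩
      have h5 : u ≠ 0 := fun h => h4 (by rw [h, mulVec_zero])
      have h6 : (z * z) • u = z • u := by
        have h7 : (E * E) *ᵥ u = E *ᵥ u := by rw [hEE]
        rw [← mulVec_mulVec, hz u hu, mulVec_smul, hz u hu, smul_smul] at h7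
        exact h7
      have h7 : z * z = z := smul_left_injective ℂ h5 h6
      exact mul_left_cancel₀ h3 (by rw [h7, mul_one])
    have e2 : V *ᵥ v ≠ 0 ∧ w = 0 := by
      rw [← mulVec_mulVec, sub_mulVec, one_mulVec, hw v hv, mulVec_sub, mulVec_smul] at hv0
      have h4 : V *ᵥ v ≠ 0 := fun h => hv0 (by rw [h, smul_zero, sub_zero])
      refine ⟨h4, ?_⟩
      have h5 : v ≠ 0 := fun h => h4 (by rw [h, mulVec_zero])
      have h6 : (w * w) • v = w • v := by
        have h7 : (E * E) *ᵥ v = E *ᵥ v := by rw [hEE]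
        rw [← mulVec_mulVec, hw v hv, mulVec_smul, hw v hv, smul_smul] at h7
        exact h7
      have h7 : w * w = w := smul_left_injective ℂ h5 h6
      by_contra hw0
      have h8 : w = 1 := mul_left_cancel₀ hw0 (by rw [h7, mul_one])
      rw [h8, one_smul, sub_self] at hv0
      exact hv0 rfl
    have hY := one_block hS hm hd ha hY₁ hY₂ hU hV hu hv e1.1 e2.1
    subst hY
    have h3 := (hz u hu).symm.trans (hw u hu)
    rw [e1.2, e2.2, one_smul, zero_smul] at h3
    exact e1.1 (by rw [h3, mulVec_zero])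
  intro X hX
  rw [← h1] at hX
  exact hX.2

end Pool.Agent.V5helper88.ID
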