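import Pool.Agent.V5helper88.ID.I3
import Pool.Agent.V5helper88.ID.I4

/-!
Two abelian varieties without homomorphisms are independent, if all blocks are of the same
dimension two or four.
-/

set_option autoImplicit false

namespace Pool.Agent.V5helper88.ID

open Matrix Module Function Pool.Agent.Y102 Pool.Agent.W516.DR Pool.Agent.H204R3.GP
  Pool.Agent.W516.KC Pool.Agent.H204R3.SP Pool.Agent.N192.GP Pool.Agent.V5helper88.HR
  Pool.Agent.N208.BT

noncomputable section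

section cxl

variable {n m p : ℕ}

/-- The extension of a rational linear map. -/
def cxl (f : (Fin n → ℚ) →ₗ[ℚ] (Fin m → ℚ)) : (Fin n → ℂ) →ₗ[ℂ] (Fin m → ℂ) :=
  Matrix.toLin' ((LinearMap.toMatrix' f).map (algebraMap ℚ ℂ))

theorem cxl_comp (f : (Fin m → ℚ) →ₗ[ℚ] (Fin p → ℚ)) (h : (Fin n → ℚ) →ₗ[ℚ] (Fin m → ℚ)) :
    cxl (f.comp h) = (cxl f).comp (cxl h) := by
  unfold cxl
  rw [LinearMap.toMatrix'_comp, Matrix.map_mul, Matrix.toLin'_mul]

theorem cxl_id : cxl (LinearMap.id : (Fin n → ℚ) →ₗ[ℚ] (Fin n → ℚ)) = LinearMap.id := by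
  unfold cxl
  rw [LinearMap.toMatrix'_id, Matrix.map_one _ (map_zero _) (map_one _), Matrix.toLin'_one]

theorem cxl_add (f h : (Fin n → ℚ) →ₗ[ℚ] (Fin m → ℚ)) : cxl (f + h) = cxl f + cxl h := by
  unfold cxl
  rw [map_add, Matrix.map_add _ (map_add _), map_add]

theorem cxl_zero : cxl (0 : (Fin n → ℚ) →ₗ[ℚ] (Fin m → ℚ)) = 0 := by
  unfold cxl
  rw [map_zero, Matrix.map_zero _ (map_zero _), map_zero]

end cxl

/-- The standard basis of the homology. -/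
abbrev bs {g : ℕ} (A : AbVar g) : Basis (Fin (2 * g)) ℚ A.H1 := Pi.basisFun ℚ (Fin (2 * g))

theorem cc_mulVec {g : ℕ} {A : AbVar g} (X : Module.End ℚ A.H1) (v : Fin (2 * g) → ℂ) :
    cc (mt (bs A) X) *ᵥ v = cxl X v := by
  unfold cxl
  rw [Matrix.toLin'_apply]
  rfl

section pull

variable {ι κ : Type} [Fintype ι] [DecidableEq ι] [Fintype κ] [DecidableEq κ]
  {HA : Submodule ℂ (Matrix κ κ ℂ)} {HP : Submodule ℂ (Matrix ι ι ℂ)}
  {j : (κ → ℂ) →ₗ[ℂ] (ι → ℂ)}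

/-- Blocks in the image of an equivariant injection. -/
theorem block_pull (hj : Function.Injective j)
    (h1 : ∀ X ∈ HA, ∃ X' ∈ HP, ∀ v, X' *ᵥ j v = j (X *ᵥ v))
    (h2 : ∀ X' ∈ HP, ∃ X ∈ HA, ∀ v, X' *ᵥ j v = j (X *ᵥ v)) {Y : Submodule ℂ (ι → ℂ)}
    (hY : Block HP Y) (hr : ∀ y ∈ Y, ∃ v, j v = y) :
    Block HA (Y.comap j) ∧ finrank ℂ (Y.comap j) = finrank ℂ Y := by
  have hm : (Y.comap j).map j = Y := by
    apply le_antisymm
    · exact Submodule.map_comap_le j Y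
    · intro y hy
      obtain ⟨v, rfl⟩ := hr y hy
      exact ⟨v, hy, rfl⟩
  refine ⟨⟨?_, ?_, ?_⟩, ?_⟩
  · intro X hX v hv
    obtain ⟨X', hX', h⟩ := h1 X hX
    rw [Submodule.mem_comap, ← h]
    exact hY.st X' hX' _ hv
  · intro h0
    apply hY.ne
    rw [← hm, h0, Submodule.map_bot]
  · intro Z hZ hZY hZ0
    have h3 : Z.map j = Y := by
      refine hY.min _ ?_ ?_ ?_
      · rintro X' hX' _ ⟨v, hv, rfl⟩
        obtain ⟨X, hX, h⟩ := h2 X' hX'
        rw [h]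
        exact ⟨_, hZ X hX v hv, rfl⟩
      · rw [Submodule.map_le_iff_le_comap]; exact hZY
      · intro h
        exact hZ0 (Submodule.map_injective_of_injective hj (h.trans (Submodule.map_bot j).symm))
    rw [← h3, Submodule.comap_map_eq_of_injective hj]
  · have h3 := (Submodule.equivMapOfInjective j hj (Y.comap j)).finrank_eq
    rw [hm] at h3
    exact h3

end pull

variable {g g' : ℕ}

/-- All blocks are of dimension `m`. -/
def AD (A : AbVar g) (m : ℕ) : Prop := AllDim (HH (bs A)) m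

/-- All endomorphisms are symmetric. -/
def Sy (A : AbVar g) : Prop := ∀ P ∈ A.EA, ∀ u v, A.om (P u) v = A.om u (P v)

theorem AD.full {A : AbVar g} {m : ℕ} (h : AD A m) {𝔥 : Submodule ℚ (Module.End ℚ A.H1)}
    (h' : A.Full 𝔥) : AllDim (HF (bs A) 𝔥) m := fun Y hY => h Y ((block_full h').1 hY)

variable {A : AbVar g} {B : AbVar g'}

/-- the projection to the first factor, as an endomorphism -/
def e1 (g g' : ℕ) : (Fin (2 * (g + g')) → ℚ) →ₗ[ℚ] (Fin (2 * (g + g')) → ℚ) :=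
  (κ1 g g').comp (π1 g g')

def e2 (g g' : ℕ) : (Fin (2 * (g + g')) → ℚ) →ₗ[ℚ] (Fin (2 * (g + g')) → ℚ) :=
  (κ2 g g').comp (π2 g g')

theorem e12 : e1 g g' + e2 g g' = LinearMap.id := LinearMap.ext fun w => κ_π w

theorem e1_mem : (e1 g g' : Module.End ℚ (prod A B).H1) ∈ (prod A B).EA :=
  isHm_end.1 (IsHm.comp hm_κ1 hm_π1)

theorem e1_idem : (e1 g g').comp (e1 g g') = e1 g g' := by
  refine LinearMap.ext fun w => ?_
  change κ1 g g' (π1 g g' (κ1 g g' (π1 g g' w))) = κ1 g g' (π1 g g' w)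
  rw [π1_κ1]

/-- the intertwining relations -/
theorem nU_κ1 {ℓ : RU} (hℓ : ℓ ∈ LU) :
    (nU (prod A B) ℓ : (Fin (2 * (g + g')) → ℚ) →ₗ[ℚ] _).comp (κ1 g g') =
      (κ1 g g').comp (nU A ℓ) :=
  LinearMap.ext fun u => nU_hom (hm_κ1 (A := A) (B := B)) hℓ u

theorem nU_κ2 {ℓ : RU} (hℓ : ℓ ∈ LU) :
    (nU (prod A B) ℓ : (Fin (2 * (g + g')) → ℚ) →ₗ[ℚ] _).comp (κ2 g g') =
      (κ2 g g').comp (nU B ℓ) :=
  LinearMap.ext fun u => nU_hom (hm_κ2 (A := A) (B := B)) hℓ u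

theorem cxl_κ1_inj : Function.Injective (cxl (κ1 g g')) := by
  have h1 : (cxl (π1 g g')).comp (cxl (κ1 g g')) = LinearMap.id := by
    rw [← cxl_comp, ← cxl_id]
    congr 1
    exact LinearMap.ext fun u => π1_κ1 u
  exact Function.LeftInverse.injective (g := cxl (π1 g g')) fun v => LinearMap.congr_fun h1 v

theorem cxl_κ2_inj : Function.Injective (cxl (κ2 g g')) := by
  have h1 : (cxl (π2 g g')).comp (cxl (κ2 g g')) = LinearMap.id := by
    rw [← cxl_comp, ← cxl_id]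
    congr 1
    exact LinearMap.ext fun u => π2_κ2 u
  exact Function.LeftInverse.injective (g := cxl (π2 g g')) fun v => LinearMap.congr_fun h1 v

section inter

/-- two-sided intertwining -/
theorem inter {n N : ℕ} {C : AbVar n} {P : AbVar N} {f : (Fin (2 * n) → ℚ) →ₗ[ℚ] (Fin (2 * N) → ℚ)}
    (h : ∀ ℓ ∈ LU, (nU P ℓ : (Fin (2 * N) → ℚ) →ₗ[ℚ] _).comp f = f.comp (nU C ℓ)) :
    (∀ X ∈ HF (bs C) (gA C), ∃ X' ∈ HF (bs P) (gA P), ∀ v, X' *ᵥ cxl f v = cxl f (X *ᵥ v)) ∧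
    (∀ X' ∈ HF (bs P) (gA P), ∃ X ∈ HF (bs C) (gA C), ∀ v, X' *ᵥ cxl f v = cxl f (X *ᵥ v)) := by
  have key : ∀ ℓ ∈ LU, ∀ v, cc (mt (bs P) (nU P ℓ)) *ᵥ cxl f v =
      cxl f (cc (mt (bs C) (nU C ℓ)) *ᵥ v) := by
    intro ℓ hℓ v
    rw [cc_mulVec, cc_mulVec]
    have h1 := congrArg cxl (h ℓ hℓ)
    rw [cxl_comp, cxl_comp] at h1
    exact LinearMap.congr_fun h1 v
  constructor
  · intro X hX
    refine HF_ind (p := fun X => ∃ X' ∈ HF (bs P) (gA P), ∀ v, X' *ᵥ cxl f v = cxl f (X *ᵥ v))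
      ?_ ?_ ?_ ?_ hX
    · rintro _ ⟨ℓ, hℓ, rfl⟩
      exact ⟨_, cc_mem ⟨ℓ, hℓ, rfl⟩, key ℓ hℓ⟩
    · exact ⟨0, Submodule.zero_mem _, fun v => by rw [zero_mulVec, zero_mulVec, map_zero]⟩
    · rintro x y ⟨x', hx', hx⟩ ⟨y', hy', hy⟩
      exact ⟨x' + y', Submodule.add_mem _ hx' hy', fun v => by
        rw [add_mulVec, add_mulVec, hx, hy, map_add]⟩
    · rintro z x ⟨x', hx', hx⟩
      exact ⟨z • x', Submodule.smul_mem _ z hx', fun v => by
        rw [smul_mulVec, smul_mulVec, hx, map_smul]⟩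
  · intro X hX
    refine HF_ind (p := fun X' => ∃ X ∈ HF (bs C) (gA C), ∀ v, X' *ᵥ cxl f v = cxl f (X *ᵥ v))
      ?_ ?_ ?_ ?_ hX
    · rintro _ ⟨ℓ, hℓ, rfl⟩
      exact ⟨_, cc_mem ⟨ℓ, hℓ, rfl⟩, key ℓ hℓ⟩
    · exact ⟨0, Submodule.zero_mem _, fun v => by rw [zero_mulVec, zero_mulVec, map_zero]⟩
    · rintro x y ⟨x', hx', hx⟩ ⟨y', hy', hy⟩
      exact ⟨x' + y', Submodule.add_mem _ hx' hy', fun v => by
        rw [add_mulVec, add_mulVec, hx, hy, map_add]⟩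
    · rintro z x ⟨x', hx', hx⟩
      exact ⟨z • x', Submodule.smul_mem _ z hx', fun v => by
        rw [smul_mulVec, smul_mulVec, hx, map_smul]⟩

end inter

/-- The matrix of the projection. -/
def E1 (A : AbVar g) (B : AbVar g') :
    Matrix (Fin (2 * (g + g'))) (Fin (2 * (g + g'))) ℂ :=
  cc (mt (bs (prod A B)) (e1 g g'))

theorem E1_cm {𝔥 : Submodule ℚ (Module.End ℚ (prod A B).H1)} (h : 𝔥 ≤ (prod A B).NA) :
    Cm (HF (bs (prod A B)) 𝔥) (E1 A B) := by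
  refine cm_of fun X hX => ?_
  have h1 := (prod A B).NA_comm (h hX) e1_mem
  unfold E1
  rw [← cc_mul, ← cc_mul, ← map_mul, ← map_mul, h1]

theorem E1_idem : E1 A B * E1 A B = E1 A B := by
  unfold E1
  rw [← cc_mul, ← map_mul]
  congr 2
  exact e1_idem

/-- The blocks of the product are those of the factors. -/
theorem AD.times {m : ℕ} (hA : AD A m) (hB : AD B m) (hs : Sy (prod A B)) : AD (prod A B) m := by
  have hF := gA_full (prod A B)
  have hS := sys_full (bs (ID.prod A B)) hs hF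
  intro Y hY
  rw [← block_full hF] at hY
  obtain ⟨z, hz⟩ := hY.scalar hS (E1_cm hF.le)
  obtain ⟨y, hy, hy0⟩ := Y.ne_bot_iff.1 hY.ne
  have hz2 : z * z = z := by
    have h7 : (E1 A B * E1 A B) *ᵥ y = E1 A B *ᵥ y := by rw [E1_idem]
    rw [← mulVec_mulVec, hz y hy, mulVec_smul, hz y hy, smul_smul] at h7
    exact smul_left_injective ℂ hy0 h7
  have hE : ∀ v, E1 A B *ᵥ v = cxl (κ1 g g') (cxl (π1 g g') v) := by
    intro v
    unfold E1
    rw [cc_mulVec]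
    unfold e1
    rw [cxl_comp]
    rfl
  have hE2 : ∀ v, cxl (κ1 g g') (cxl (π1 g g') v) + cxl (κ2 g g') (cxl (π2 g g') v) = v := by
    intro v
    have h1 := congrArg cxl (e12 (g := g) (g' := g'))
    rw [cxl_add, cxl_id] at h1
    unfold e1 e2 at h1
    rw [cxl_comp, cxl_comp] at h1
    exact LinearMap.congr_fun h1 v
  by_cases hz0 : z = 0
  · obtain ⟨h1, h2⟩ := inter (C := B) (P := ID.prod A B) (f := κ2 g g') fun ℓ hℓ => nU_κ2 hℓ
    obtain ⟨h3, h4⟩ := block_pull cxl_κ2_inj h1 h2 hY fun y hy => ⟨cxl (π2 g g') y, by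
      have h5 := hz y hy
      rw [hz0, zero_smul, hE] at h5
      have h6 := hE2 y
      rw [h5, zero_add] at h6
      exact h6⟩
    rw [← h4]
    exact hB _ ((block_full (gA_full B)).1 h3)
  · have hz1 : z = 1 := mul_left_cancel₀ hz0 (by rw [hz2, mul_one])
    obtain ⟨h1, h2⟩ := inter (C := A) (P := ID.prod A B) (f := κ1 g g') fun ℓ hℓ => nU_κ1 hℓ
    obtain ⟨h3, h4⟩ := block_pull cxl_κ1_inj h1 h2 hY fun y hy => ⟨cxl (π1 g g') y, by
      have h5 := hz y hy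
      rw [hz1, one_smul, hE] at h5
      exact h5⟩
    rw [← h4]
    exact hA _ ((block_full (gA_full A)).1 h3)

/-- **The weak form of the independence.** -/
theorem indep0 {m : ℕ} (hm : m = 2 ∨ m = 4) (hA : AD A m) (hB : AD B m) (hs : Sy (prod A B))
    {ℓ : RU} (hℓ : ℓ ∈ LU) : ∃ ℓ' ∈ LU, nU A ℓ' = nU A ℓ ∧ nU B ℓ' = 0 := by
  have hF := gA_full (prod A B)
  have hS := sys_full (bs (ID.prod A B)) hs hF
  have h1 := split_ideal hS hm ((hA.times hB hs).full hF) (E1_cm hF.le) E1_idem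
    (cc (mt (bs (ID.prod A B)) (nU (ID.prod A B) ℓ))) (cc_mem ⟨ℓ, hℓ, rfl⟩)
  have h2 : cc (mt (bs (ID.prod A B)) (nU (ID.prod A B) ℓ)) * E1 A B =
      cc (mt (bs (ID.prod A B)) (nU (ID.prod A B) ℓ * (e1 g g' : Module.End ℚ (ID.prod A B).H1))) := by
    unfold E1
    rw [← cc_mul, ← map_mul]
  rw [h2] at h1
  obtain ⟨l, hl⟩ : ∃ l : ℂ →ₗ[ℚ] ℚ, l 1 = 1 := by
    obtain ⟨l, hl⟩ := LinearMap.exists_leftInverse_of_injective (Algebra.linearMap ℚ ℂ)
      (LinearMap.ker_eq_bot.2 (algebraMap ℚ ℂ).injective)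
    refine ⟨l, ?_⟩
    have h3 := LinearMap.congr_fun hl 1
    simpa using h3
  obtain ⟨X, ⟨ℓ', hℓ', rfl⟩, h3⟩ := span_comp h1 l
  rw [lm_cc, hl, one_smul] at h3
  have h4 := (mt (bs (ID.prod A B))).injective h3
  refine ⟨ℓ', hℓ', ?_, ?_⟩
  · refine LinearMap.ext fun u => ?_
    have h5 := LinearMap.congr_fun h4 (κ1 g g' u)
    have h6 : nU (ID.prod A B) ℓ (κ1 g g' (π1 g g' (κ1 g g' u))) =
      nU (ID.prod A B) ℓ' (κ1 g g' u) := h5
    rw [π1_κ1, nU_hom hm_κ1 hℓ, nU_hom hm_κ1 hℓ'] at h6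
    have h7 := congrArg (π1 g g') h6
    rw [π1_κ1, π1_κ1] at h7
    exact h7.symm
  · refine LinearMap.ext fun u => ?_
    have h5 := LinearMap.congr_fun h4 (κ2 g g' u)
    have h6 : nU (ID.prod A B) ℓ (κ1 g g' (π1 g g' (κ2 g g' u))) =
      nU (ID.prod A B) ℓ' (κ2 g g' u) := h5
    rw [π1_κ2, map_zero, map_zero, nU_hom hm_κ2 hℓ'] at h6
    have h7 := congrArg (π2 g g') h6
    rw [π2_κ2, map_zero] at h7
    exact h7.symm

/-- The Lie algebra is perfect. -/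
theorem Sy.perf (hs : Sy A) : gA A ≤ brk (gA A) (gA A) := by
  intro X hX
  obtain ⟨Z, hZ, d, hd, rfl, hc⟩ := (gA_full A).dec hX
  have h1 : Z ∈ A.EA := by
    have h2 := (gA_full A).comm Z fun Y hY => (hc Y hY).symm
    exact fun X hX => h2 X (A.LA_le_NA hX)
  have h2 : Z = 0 := by
    refine LinearMap.ext fun u => A.om_nondeg fun v => ?_
    have h3 := A.NA_skew ((gA_full A).le hZ) u v
    rw [← hs Z h1] at h3
    linarith
  rw [h2, zero_add]
  exact hd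

/-- **Independence.** -/
theorem sep_pair' {m : ℕ} (hm : m = 2 ∨ m = 4) (hA : AD A m) (hB : AD B m) (hsA : Sy A)
    (hs : Sy (prod A B)) : SepU (sA A) (sA B) := by
  change gA A ≤ (LU ⊓ atU (sA B)).map (nU A)
  refine hsA.perf.trans ?_
  unfold brk
  rw [Submodule.span_le]
  rintro _ ⟨_, ⟨x, hx, rfl⟩, _, ⟨y, hy, rfl⟩, rfl⟩
  obtain ⟨x', hx', e1, e2⟩ := indep0 hm hA hB hs hx
  obtain ⟨y', hy', e3, e4⟩ := indep0 hm hA hB hs hy
  refine ⟨x' * y' - y' * x', ⟨LU_br x' hx' y' hy', ?_⟩, ?_⟩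
  · have f1 : ∀ z : RU, nU B z = 0 → aU B z = (z.2 / 2) • (1 : Module.End ℚ B.H1) := by
      intro z hz
      refine LinearMap.ext fun u => ?_
      have h1 := LinearMap.congr_fun hz u
      rw [nU_apply, LinearMap.zero_apply, sub_eq_zero] at h1
      exact h1
    change aU B x' * aU B y' - aU B y' * aU B x' = 0
    rw [f1 _ e2, f1 _ e4]
    simp only [smul_mul_assoc, mul_smul_comm, one_mul]
    rw [smul_comm, sub_self]
  · rw [nU_hm, e1, e3]

end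

end Pool.Agent.V5helper88.ID
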