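import Pool.Agent.V5helper88.HR.G20

/-!
Invariant alternating forms of odd degree vanish.
-/

set_option autoImplicit false

namespace Pool.Agent.V5helper88.ID

open Matrix Module Function Pool.Agent.V5helper88.HR

variable {ι : Type} [Fintype ι] [DecidableEq ι] {Ω : Matrix ι ι ℂ}
  {H : Submodule ℂ (Matrix ι ι ℂ)} {n : ℕ}

/-- The contraction of the first two variables with a bivector. -/
noncomputable def con (Q : Matrix ι ι ℂ) (φ : (ι → ℂ) [⋀^Fin (n + 2)]→ₗ[ℂ] ℂ) :
    (ι → ℂ) [⋀^Fin n]→ₗ[ℂ] ℂ :=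
  ∑ i, ∑ j, Q i j • (φ.curryLeft (Pi.single i 1)).curryLeft (Pi.single j 1)

theorem con_apply (Q : Matrix ι ι ℂ) (φ : (ι → ℂ) [⋀^Fin (n + 2)]→ₗ[ℂ] ℂ)
    (w : Fin n → ι → ℂ) : con Q φ w = ∑ i, ∑ j, Q i j *
      φ (vecCons (Pi.single i 1) (vecCons (Pi.single j 1) w)) := by
  let ev : ((ι → ℂ) [⋀^Fin n]→ₗ[ℂ] ℂ) →ₗ[ℂ] ℂ :=
    { toFun := fun ψ => ψ w, map_add' := fun _ _ => rfl, map_smul' := fun _ _ => rfl }
  change ev (con Q φ) = _
  unfold con
  rw [map_sum]
  refine Finset.sum_congr rfl fun i _ => ?_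
  rw [map_sum]
  refine Finset.sum_congr rfl fun j _ => ?_
  rw [map_smul, smul_eq_mul]
  rfl

theorem cons_update (x y : ι → ℂ) (w : Fin n → ι → ℂ) (p : Fin n) (z : ι → ℂ) :
    update (vecCons x (vecCons y w)) p.succ.succ z = vecCons x (vecCons y (update w p z)) := by
  funext q
  refine Fin.cases ?_ (fun q => Fin.cases ?_ (fun q => ?_) q) q
  · rw [update_of_ne (Fin.succ_ne_zero _).symm]
    rfl
  · rw [update_of_ne (fun h => Fin.succ_ne_zero _ (Fin.succ_inj.mp h).symm)]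
    rfl
  · by_cases h : q = p
    · subst h
      rw [update_self]
      change z = update w q z q
      rw [update_self]
    · rw [update_of_ne (fun h' => h (Fin.succ_inj.mp (Fin.succ_inj.mp h')))]
      change w q = update w p z q
      rw [update_of_ne h]

theorem bil2' (φ : (ι → ℂ) [⋀^Fin (n + 2)]→ₗ[ℂ] ℂ) (w : Fin n → ι → ℂ) :
    ∃ m : (ι → ℂ) →ₗ[ℂ] (ι → ℂ) →ₗ[ℂ] ℂ, ∀ x y, m x y = φ (vecCons x (vecCons y w)) := by
  have h : (0 : Fin (n + 2)) ≠ Fin.succ 0 := (Fin.succ_ne_zero _).symm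
  refine ⟨bil φ (vecCons 0 (vecCons 0 w)) h, fun x y => ?_⟩
  rw [bil_apply]
  congr 1
  funext q
  refine Fin.cases ?_ (fun q => Fin.cases ?_ (fun q => ?_) q) q
  · rw [update_of_ne h, update_self]; rfl
  · rw [update_self]; rfl
  · rw [update_of_ne, update_of_ne]
    · rfl
    · exact Fin.succ_ne_zero _
    · intro h'
      exact Fin.succ_ne_zero _ (Fin.succ_inj.mp h')

theorem con_kil (hS : Sys Ω H) {Q : Matrix ι ι ℂ} (hQ : Cm H (Q * Ω))
    {φ : (ι → ℂ) [⋀^Fin (n + 2)]→ₗ[ℂ] ℂ} (hφ : Kil H φ) : Kil H (con Q φ) := by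
  intro X hX w
  simp only [con_apply]
  have h1 : ∀ i j, ∑ p : Fin n, Q i j *
      φ (vecCons (Pi.single i 1) (vecCons (Pi.single j 1) (update w p (X *ᵥ w p))))
      = -(Q i j * (φ (vecCons (X *ᵥ Pi.single i 1) (vecCons (Pi.single j 1) w))
        + φ (vecCons (Pi.single i 1) (vecCons (X *ᵥ Pi.single j 1) w)))) := by
    intro i j
    have h2 := hφ X hX (vecCons (Pi.single i 1) (vecCons (Pi.single j 1) w))
    rw [Fin.sum_univ_succ, Fin.sum_univ_succ] at h2
    have e0 : update (vecCons (Pi.single i 1) (vecCons (Pi.single j 1) w) : Fin (n + 2) → ι → ℂ)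
        0 (X *ᵥ (vecCons (Pi.single i 1) (vecCons (Pi.single j 1) w) : Fin (n + 2) → ι → ℂ) 0)
        = vecCons (X *ᵥ Pi.single i 1) (vecCons (Pi.single j 1) w) := by
      funext q
      refine Fin.cases ?_ (fun q => ?_) q
      · rw [update_self]; rfl
      · rw [update_of_ne (Fin.succ_ne_zero _)]; rfl
    have e1 : update (vecCons (Pi.single i 1) (vecCons (Pi.single j 1) w) : Fin (n + 2) → ι → ℂ)
        (Fin.succ 0) (X *ᵥ (vecCons (Pi.single i 1) (vecCons (Pi.single j 1) w) :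
          Fin (n + 2) → ι → ℂ) (Fin.succ 0))
        = vecCons (Pi.single i 1) (vecCons (X *ᵥ Pi.single j 1) w) := by
      funext q
      refine Fin.cases ?_ (fun q => Fin.cases ?_ (fun q => ?_) q) q
      · rw [update_of_ne (Fin.succ_ne_zero _).symm]; rfl
      · rw [update_self]; rfl
      · rw [update_of_ne (fun h => Fin.succ_ne_zero _ (Fin.succ_inj.mp h))]; rfl
    rw [e0, e1] at h2
    have e2 : ∀ p : Fin n, update (vecCons (Pi.single i 1) (vecCons (Pi.single j 1) w) :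
        Fin (n + 2) → ι → ℂ) p.succ.succ (X *ᵥ (vecCons (Pi.single i 1)
          (vecCons (Pi.single j 1) w) : Fin (n + 2) → ι → ℂ) p.succ.succ)
        = vecCons (Pi.single i 1) (vecCons (Pi.single j 1) (update w p (X *ᵥ w p))) :=
      fun p => cons_update _ _ _ _ _
    simp only [e2] at h2
    rw [← Finset.mul_sum]
    linear_combination Q i j * h2
  have h3 : ∀ p : Fin n, ∑ i, ∑ j, Q i j *
      φ (vecCons (Pi.single i 1) (vecCons (Pi.single j 1) (update w p (X *ᵥ w p))))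
      = ∑ t : ι × ι, Q t.1 t.2 *
      φ (vecCons (Pi.single t.1 1) (vecCons (Pi.single t.2 1) (update w p (X *ᵥ w p)))) :=
    fun p => by rw [Fintype.sum_prod_type]
  simp only [h3]
  rw [Finset.sum_comm, Finset.sum_congr rfl fun t _ => h1 t.1 t.2, Fintype.sum_prod_type]
  simp only [Finset.sum_neg_distrib]
  rw [neg_eq_zero]
  obtain ⟨m, hm⟩ := bil2' φ w
  simp only [← hm]
  have e1 : ∀ i j, m (X *ᵥ Pi.single i 1) (Pi.single j 1)
      = ∑ l, X l i * m (Pi.single l 1) (Pi.single j 1) := by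
    intro i j
    rw [mulVec_basis, LinearMap.map_sum₂]
    refine Finset.sum_congr rfl fun l _ => ?_
    rw [LinearMap.map_smul₂, smul_eq_mul]
  have e2 : ∀ i j, m (Pi.single i 1) (X *ᵥ Pi.single j 1)
      = ∑ l, X l j * m (Pi.single i 1) (Pi.single l 1) := by
    intro i j
    rw [mulVec_basis, map_sum]
    refine Finset.sum_congr rfl fun l _ => ?_
    rw [map_smul, smul_eq_mul]
  simp only [e1, e2, mul_add, Finset.sum_add_distrib]
  have h4 : ∑ i, ∑ j, Q i j * ∑ l, X l i * m (Pi.single l 1) (Pi.single j 1)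
      = ∑ l, ∑ j, (X * Q) l j * m (Pi.single l 1) (Pi.single j 1) := by
    simp only [Finset.mul_sum, mul_apply, Finset.sum_mul]
    rw [Finset.sum_congr rfl fun i _ => Finset.sum_comm, Finset.sum_comm]
    refine Finset.sum_congr rfl fun l _ => ?_
    rw [Finset.sum_comm]
    refine Finset.sum_congr rfl fun j _ => Finset.sum_congr rfl fun i _ => ?_
    ring
  have h5 : ∑ i, ∑ j, Q i j * ∑ l, X l j * m (Pi.single i 1) (Pi.single l 1)
      = ∑ i, ∑ l, (Q * Xᵀ) i l * m (Pi.single i 1) (Pi.single l 1) := by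
    refine Finset.sum_congr rfl fun i _ => ?_
    simp only [Finset.mul_sum, mul_apply, Finset.sum_mul, transpose_apply]
    rw [Finset.sum_comm]
    refine Finset.sum_congr rfl fun j _ => Finset.sum_congr rfl fun l _ => ?_
    ring
  rw [h4, h5, ← Finset.sum_add_distrib]
  refine Finset.sum_eq_zero fun i _ => ?_
  rw [← Finset.sum_add_distrib]
  refine Finset.sum_eq_zero fun j _ => ?_
  rw [← add_mul, ← Matrix.add_apply, hS.bivector hQ hX, Matrix.zero_apply, zero_mul]

theorem prim_of_con {φ : (ι → ℂ) [⋀^Fin (n + 2)]→ₗ[ℂ] ℂ} (hφ : Kil H φ)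
    (h : ∀ Q : Matrix ι ι ℂ, Cm H (Q * Ω) → con Q φ = 0) : Prim Ω H φ := by
  refine ⟨hφ, fun Q hQ s s' hs v => ?_⟩
  have h01 : (0 : Fin (n + 2)) ≠ Fin.succ 0 := (Fin.succ_ne_zero _).symm
  obtain ⟨σ, h1, h2⟩ := exists_move (p := (0 : Fin (n + 2))) (q := Fin.succ 0) h01 hs
  have h3 := congrArg (fun ψ : (ι → ℂ) [⋀^Fin n]→ₗ[ℂ] ℂ =>
    ψ fun p => v (σ p.succ.succ)) (h Q hQ)
  simp only [con_apply, AlternatingMap.zero_apply] at h3
  have h4 : ∀ i j, φ (update (update v s (Pi.single i 1)) s' (Pi.single j 1))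
      = ((Equiv.Perm.sign σ : ℤ) : ℂ) *
        φ (vecCons (Pi.single i 1) (vecCons (Pi.single j 1) fun p => v (σ p.succ.succ))) := by
    intro i j
    have h5 := φ.map_perm (update (update v s (Pi.single i 1)) s' (Pi.single j 1)) σ
    have h6 : (update (update v s (Pi.single i 1)) s' (Pi.single j 1)) ∘ σ
        = vecCons (Pi.single i 1) (vecCons (Pi.single j 1) fun p => v (σ p.succ.succ)) := by
      funext q
      refine Fin.cases ?_ (fun q => Fin.cases ?_ (fun q => ?_) q) q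
      · rw [Function.comp_apply, h1, update_of_ne hs, update_self]; rfl
      · rw [Function.comp_apply, h2, update_self]; rfl
      · rw [Function.comp_apply, update_of_ne, update_of_ne]
        · rfl
        · rw [← h1]
          intro h0
          exact Fin.succ_ne_zero _ (σ.injective h0)
        · rw [← h2]
          intro h0
          exact Fin.succ_ne_zero _ (Fin.succ_inj.mp (σ.injective h0))
    rw [h6, Units.smul_def, zsmul_eq_mul] at h5
    rw [h5, ← mul_assoc]
    have e5 : ((Equiv.Perm.sign σ : ℤ) : ℂ) * ((Equiv.Perm.sign σ : ℤ) : ℂ) = 1 := by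
      rcases Int.units_eq_one_or (Equiv.Perm.sign σ) with h | h <;> rw [h] <;> norm_num
    rw [e5, one_mul]
  have h5 : ∑ i, ∑ j, Q i j * φ (update (update v s (Pi.single i 1)) s' (Pi.single j 1))
      = ((Equiv.Perm.sign σ : ℤ) : ℂ) * ∑ i, ∑ j, Q i j *
        φ (vecCons (Pi.single i 1) (vecCons (Pi.single j 1) fun p => v (σ p.succ.succ))) := by
    rw [Finset.mul_sum]
    refine Finset.sum_congr rfl fun i _ => ?_
    rw [Finset.mul_sum]
    refine Finset.sum_congr rfl fun j _ => ?_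
    rw [h4]
    ring
  rw [h5, h3, mul_zero]

/-- **Odd degree.** -/
theorem odd_vanish (hS : Sys Ω H) (hd : ∀ Y, Block H Y → finrank ℂ Y ≤ 4) :
    ∀ (k : ℕ) (φ : (ι → ℂ) [⋀^Fin (2 * k + 1)]→ₗ[ℂ] ℂ), Kil H φ → φ = 0 := by
  intro k
  induction k with
  | zero =>
    intro φ hφ
    haveI : Nonempty (Fin (2 * 0 + 1)) := ⟨0⟩
    refine vanish hS hd ⟨hφ, fun Q _ s s' hs _ => absurd ?_ hs⟩
    have h1 := s.2
    have h2 := s'.2
    exact Fin.ext (by omega)
  | succ k ih =>
    intro φ hφ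
    haveI : Nonempty (Fin (2 * (k + 1) + 1)) := ⟨0⟩
    exact vanish hS hd (prim_of_con (n := 2 * k + 1) hφ fun Q hQ =>
      ih _ (con_kil (n := 2 * k + 1) hS hQ hφ))

/-- Odd degree, for an arbitrary index set. -/
theorem odd_vanish' (hS : Sys Ω H) (hd : ∀ Y, Block H Y → finrank ℂ Y ≤ 4) {κ : Type}
    [Fintype κ] [DecidableEq κ] (ho : Odd (Fintype.card κ)) {φ : (ι → ℂ) [⋀^κ]→ₗ[ℂ] ℂ}
    (hφ : Kil H φ) : φ = 0 := by
  obtain ⟨k, hk⟩ := ho
  let e : Fin (2 * k + 1) ≃ κ := (finCongr hk.symm).trans (Fintype.equivFin κ).symm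
  have h1 : φ.domDomCongr e.symm = 0 := by
    refine odd_vanish hS hd k _ fun X hX v => ?_
    have h2 := hφ X hX (v ∘ e.symm)
    rw [← h2]
    refine Fintype.sum_equiv e _ _ fun s => ?_
    rw [AlternatingMap.domDomCongr_apply]
    congr 1
    funext q
    have e1 : (v ∘ e.symm) (e s) = v s := by rw [Function.comp_apply, Equiv.symm_apply_apply]
    rw [e1]
    change (update v s (X *ᵥ v s)) (e.symm q) = _
    by_cases h : q = e s
    · subst h
      rw [Equiv.symm_apply_apply, update_self, update_self]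
    · rw [update_of_ne h, update_of_ne, Function.comp_apply]
      intro h'
      exact h (by rw [← h', Equiv.apply_symm_apply])
  refine AlternatingMap.ext fun v => ?_
  have h2 := congrArg (fun ψ : (ι → ℂ) [⋀^Fin (2 * k + 1)]→ₗ[ℂ] ℂ => ψ (v ∘ e)) h1
  simp only [AlternatingMap.domDomCongr_apply, AlternatingMap.zero_apply] at h2
  rw [AlternatingMap.zero_apply, ← h2]
  congr 1
  funext q
  simp

end Pool.Agent.V5helper88.ID
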