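import Pool.Agent.V5helper88.ID.I5
import Pool.Agent.V5helper88.ID.I6

/-!
The dimension of the blocks is determined by the dimension of the algebra of endomorphisms.
-/

set_option autoImplicit false

namespace Pool.Agent.V5helper88.ID

open Matrix Module Function Pool.Agent.Y102 Pool.Agent.W516.DR Pool.Agent.H204R3.GP
  Pool.Agent.W516.KC Pool.Agent.H204R3.SP Pool.Agent.N192.GP Pool.Agent.V5helper88.HR
  Pool.Agent.N208.BT

noncomputable section

section count

variable {ι : Type} [Fintype ι] [DecidableEq ι] {Ω : Matrix ι ι ℂ}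
  {H : Submodule ℂ (Matrix ι ι ℂ)}

/-- The commutant. -/
def CmS (H : Submodule ℂ (Matrix ι ι ℂ)) : Submodule ℂ (Matrix ι ι ℂ) where
  carrier := {P | Cm H P}
  zero_mem' := fun X _ => by rw [zero_mul, mul_zero]
  add_mem' := fun {P Q} hP hQ => hP.add hQ
  smul_mem' := fun z P hP => hP.smul z

/-- The projections to the blocks are independent. -/
theorem proj_indep (hS : Sys Ω H) : ∃ Q : {Y // Block H Y} → CmS H, LinearIndependent ℂ Q := by
  choose Q h1 h2 h3 using fun Y : {Y // Block H Y} => hS.proj Y.1 Y.2.st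
  refine ⟨fun Y => ⟨Q Y, h1 Y⟩, ?_⟩
  rw [linearIndependent_iff']
  intro s c hc Y hY
  obtain ⟨v, hv, hv0⟩ := Y.1.ne_bot_iff.1 Y.2.ne
  have h4 : (∑ Z ∈ s, c Z • Q Z) *ᵥ v = 0 := by
    have h5 := congrArg (fun P : CmS H => (P : Matrix ι ι ℂ)) hc
    simp only [AddSubmonoidClass.coe_finsetSum, SetLike.val_smul, ZeroMemClass.coe_zero] at h5
    rw [h5, zero_mulVec]
  rw [sum_mulVec, Finset.sum_eq_single Y, smul_mulVec, h3 Y v hv] at h4
  · exact (smul_eq_zero.1 h4).resolve_right hv0
  · intro Z _ hne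
    rw [smul_mulVec, Y.2.hom_zero hS Z.2 (fun h => hne (Subtype.ext h.symm)) (h1 Z)
      (fun w _ => h2 Z w) v hv, smul_zero]
  · intro h; exact absurd hY h

theorem finrank_sup_le' {B : Type} [DecidableEq B] (Y : B → Submodule ℂ (ι → ℂ))
    (s : Finset B) : finrank ℂ (s.sup Y : Submodule ℂ (ι → ℂ)) ≤ ∑ b ∈ s, finrank ℂ (Y b) := by
  induction s using Finset.induction_on with
  | empty => rw [Finset.sup_empty, finrank_bot]; exact Nat.zero_le _
  | insert b s hb ih =>
    rw [Finset.sup_insert, Finset.sum_insert hb]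
    exact (Submodule.finrank_add_le_finrank_add_finrank _ _).trans (Nat.add_le_add_left ih _)

/-- **The count.** -/
theorem allDim_of_card (hS : Sys Ω H) {m e : ℕ} (hle : ∀ Y, Block H Y → finrank ℂ Y ≤ m)
    (he : finrank ℂ (CmS H) ≤ e) (hc : m * e ≤ Fintype.card ι) : AllDim H m := by
  classical
  obtain ⟨Q, hQ⟩ := proj_indep hS
  haveI : Finite {Y // Block H Y} := hQ.finite_of_isNoetherian
  haveI : Fintype {Y // Block H Y} := Fintype.ofFinite _
  have h1 : Fintype.card {Y // Block H Y} ≤ e := (hQ.fintype_card_le_finrank).trans he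
  have h2 : (Finset.univ.sup fun Y : {Y // Block H Y} => Y.1 : Submodule ℂ (ι → ℂ)) = ⊤ := by
    rw [eq_top_iff, ← span_blocks hS, Submodule.span_le]
    rintro v ⟨Y, hY, hv⟩
    exact (Finset.le_sup (f := fun Y : {Y // Block H Y} => Y.1)
      (Finset.mem_univ (⟨Y, hY⟩ : {Y // Block H Y}))) hv
  have h3 := finrank_sup_le' (fun Y : {Y // Block H Y} => Y.1) Finset.univ
  rw [h2, finrank_top, Module.finrank_fintype_fun_eq_card] at h3
  intro Y hY
  by_contra hne
  have h4 : finrank ℂ Y < m := lt_of_le_of_ne (hle Y hY) hne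
  have h5 : ∑ b : {Y // Block H Y}, finrank ℂ b.1 < ∑ _b : {Y // Block H Y}, m :=
    Finset.sum_lt_sum (fun b _ => hle b.1 b.2) ⟨⟨Y, hY⟩, Finset.mem_univ _, h4⟩
  rw [Finset.sum_const, Finset.card_univ, smul_eq_mul] at h5
  have h6 : Fintype.card {Y // Block H Y} * m ≤ m * e := by
    rw [mul_comm]
    exact Nat.mul_le_mul_left m h1
  omega

/-- Every matrix is a combination of its rational components. -/
theorem mat_decomp (P : Matrix ι ι ℂ) :
    P ∈ Submodule.span ℂ {Z | ∃ l : ℂ →ₗ[ℚ] ℚ, Z = cc (lm l P)} := by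
  classical
  let β := Basis.ofVectorSpace ℚ ℂ
  let s := Finset.univ.biUnion fun p : ι × ι => (β.repr (P p.1 p.2)).support
  have h1 : P = ∑ k ∈ s, β k • cc (lm (β.coord k) P) := by
    ext i j
    rw [Matrix.sum_apply]
    simp only [Matrix.smul_apply, cc_apply, smul_eq_mul]
    conv_lhs => rw [← β.linearCombination_repr (P i j)]
    rw [Finsupp.linearCombination_apply, Finsupp.sum]
    have h2 : (β.repr (P i j)).support ⊆ s := by
      intro k hk
      exact Finset.mem_biUnion.2 ⟨(i, j), Finset.mem_univ _, hk⟩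
    rw [← Finset.sum_subset h2]
    · refine Finset.sum_congr rfl fun k _ => ?_
      rw [Rat.smul_def, mul_comm]
      rfl
    · intro k _ hk
      have h3 : lm (β.coord k) P i j = 0 := by
        change β.coord k (P i j) = 0
        rw [Basis.coord_apply]
        exact Finsupp.notMem_support_iff.1 hk
      rw [h3, Rat.cast_zero, mul_zero]
  rw [h1]
  exact Submodule.sum_mem _ fun k _ => Submodule.smul_mem _ _
    (Submodule.subset_span ⟨β.coord k, by rw [← h1]⟩)

end count

variable {g : ℕ} {A : AbVar g}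

theorem finrank_CmS (b : Basis (Fin (2 * g)) ℚ A.H1) :
    finrank ℂ (CmS (HH b)) ≤ finrank ℚ A.EA := by
  haveI : Module.Free ℚ A.EA := Module.Free.of_divisionRing ℚ A.EA
  let β := Module.finBasis ℚ A.EA
  have h1 : CmS (HH b) ≤ Submodule.span ℂ (Set.range fun i => cc (mt b (β i : Module.End ℚ A.H1))) := by
    intro P hP
    refine (Submodule.span_le.2 ?_) (mat_decomp P)
    rintro _ ⟨l, rfl⟩
    have h2 := comp_mem hP l
    have h3 := β.sum_repr ⟨_, h2⟩
    have h4 := congrArg (fun x : A.EA => cc (mt b (x : Module.End ℚ A.H1))) h3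
    simp only [AddSubmonoidClass.coe_finsetSum, SetLike.val_smul, AlgEquiv.apply_symm_apply] at h4
    have h5 : cc (lm l P) = ∑ i, ((β.repr ⟨_, h2⟩ i : ℚ) : ℂ) •
        cc (mt b (β i : Module.End ℚ A.H1)) := by
      rw [← h4]
      ext p q
      rw [Matrix.sum_apply, cc_apply, map_sum, Matrix.sum_apply, Rat.cast_sum]
      refine Finset.sum_congr rfl fun i _ => ?_
      rw [Matrix.smul_apply, cc_apply, map_smul, Matrix.smul_apply, smul_eq_mul, smul_eq_mul,
        Rat.cast_mul]
    rw [h5]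
    exact Submodule.sum_mem _ fun i _ => Submodule.smul_mem _ _
      (Submodule.subset_span ⟨i, rfl⟩)
  refine (Submodule.finrank_mono h1).trans ?_
  refine (finrank_range_le_card _).trans ?_
  rw [Fintype.card_fin]

/-- All blocks are of dimension `m`. -/
theorem ad_of_count (hs : Sy A) {P : Module.End ℚ A.H1} (hP : P ∈ A.EA) {m : ℕ}
    (hm : ∀ z : ℂ, (P.charpoly.map (algebraMap ℚ ℂ)).rootMultiplicity z ≤ m)
    (hc : m * finrank ℚ A.EA ≤ 2 * g) : AD A m := by
  have hS := sys_of_sym (bs A) hs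
  exact allDim_of_card hS (block_le hP hm (bs A) hS) (finrank_CmS (bs A))
    (by rw [Fintype.card_fin]; exact hc)

end

end Pool.Agent.V5helper88.ID
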