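import Pool.Agent.V5helper88.ID.I7

/-!
Abelian varieties with homomorphisms to a family of independent abelian varieties.
-/

set_option autoImplicit false

namespace Pool.Agent.V5helper88.ID

open Matrix Module Function Pool.Agent.Y102 Pool.Agent.W516.DR Pool.Agent.H204R3.GP
  Pool.Agent.W516.KC Pool.Agent.H204R3.SP Pool.Agent.N192.GP Pool.Agent.V5helper88.HR
  Pool.Agent.N208.BT

noncomputable section

/-! ### Ideals of the universal Lie algebra -/

theorem idlU_at (V : UU) : Idl (LU ⊓ atU V) LU := by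
  refine ⟨inf_le_left, fun x hx y hy => ⟨LU_br x hx y hy.1, ?_⟩⟩
  have e1 : y.1 V = 0 := hy.2
  change (x * y - y * x).1 V = 0
  rw [brU_fst, e1, mul_zero, zero_mul, sub_zero]

theorem idlU_tw : Idl (LU ⊓ twU) LU :=
  ⟨inf_le_left, fun x hx y hy => ⟨LU_br x hx y hy.1, brU_snd x y⟩⟩

section joint

variable {I : Type} {g : I → ℕ} {A : ∀ i, AbVar (g i)}

/-- Elements of the universal Lie algebra which act on one member only. -/
theorem exists_one [DecidableEq I] (hperf : ∀ i, gA (A i) ≤ brk (gA (A i)) (gA (A i)))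
    (S : Finset I) {i : I} (hAA : ∀ j ∈ S, j ≠ i → SepU (sA (A i)) (sA (A j)))
    {ℓ : RU} (hℓ : ℓ ∈ LU) : ∃ x ∈ LU, nU (A i) x = nU (A i) ℓ ∧ x.2 = 0 ∧
      ∀ j ∈ S, j ≠ i → x.1 (sA (A j)) = 0 := by
  let 𝔫 : Option I → Submodule ℚ RU := fun t => match t with
    | none => LU ⊓ twU
    | some j => if j = i then LU ⊓ twU else LU ⊓ atU (sA (A j))
  have hn : ∀ t, Idl (𝔫 t) LU := by
    intro t
    rcases t with _ | j
    · exact idlU_tw
    · by_cases h : j = i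
      · simp only [𝔫, if_pos h]; exact idlU_tw
      · simp only [𝔫, if_neg h]; exact idlU_at _
  have htw : ggU (sA (A i)) ≤ (LU ⊓ twU).map (prU (sA (A i))) :=
    step (prU_hm (sA (A i)) LU) (hperf i) le_rfl le_rfl le_rfl le_rfl
      fun x hx y hy => ⟨LU_br x hx y hy, brU_snd x y⟩
  have h1 := ribet (prU_hm (sA (A i)) LU) (hperf i) le_rfl hn
    (insert none (S.map ⟨some, Option.some_injective I⟩)) (fun t ht => by
      rcases Finset.mem_insert.1 ht with rfl | ht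
      · exact htw
      · obtain ⟨j, hj, rfl⟩ := Finset.mem_map.1 ht
        change _ ≤ Submodule.map _ (if j = i then LU ⊓ twU else LU ⊓ atU (sA (A j)))
        by_cases h : j = i
        · rw [if_pos h]; exact htw
        · rw [if_neg h]; exact hAA j hj h)
  obtain ⟨x, hx, h2⟩ := h1 (⟨ℓ, hℓ, rfl⟩ : nU (A i) ℓ ∈ LU.map (prU (sA (A i))))
  have h3 : ∀ t ∈ insert none (S.map ⟨some, Option.some_injective I⟩), x ∈ 𝔫 t := fun t ht =>
    (Submodule.mem_iInf _).1 ((Submodule.mem_iInf _).1 hx.2 t) ht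
  refine ⟨x, hx.1, h2, (h3 none (Finset.mem_insert_self _ _)).2, fun j hj hji => ?_⟩
  have h4 := h3 (some j) (Finset.mem_insert_of_mem (Finset.mem_map.2 ⟨j, hj, rfl⟩))
  simp only [𝔫, if_neg hji] at h4
  exact h4.2

/-- The same with a structure on which the element acts trivially. -/
theorem exists_one' [DecidableEq I] (hperf : ∀ i, gA (A i) ≤ brk (gA (A i)) (gA (A i)))
    (S : Finset I) {i : I} (hAA : ∀ j ∈ S, j ≠ i → SepU (sA (A i)) (sA (A j))) {V : UU}
    (hV : SepU (sA (A i)) V)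
    {ℓ : RU} (hℓ : ℓ ∈ LU) : ∃ x ∈ LU, nU (A i) x = nU (A i) ℓ ∧ x.2 = 0 ∧ x.1 V = 0 ∧
      ∀ j ∈ S, j ≠ i → x.1 (sA (A j)) = 0 := by
  have h1 : gA (A i) ≤ ((LU ⊓ twU) ⊓ (atU V ⊓ ⨅ j ∈ S.filter fun j => j ≠ i,
      atU (sA (A j)))).map (nU (A i)) := by
    refine step (prU_hm (sA (A i)) LU) (hperf i) (𝔪 := LU ⊓ atU V)
      (𝔫 := (LU ⊓ twU) ⊓ ⨅ j ∈ S.filter fun j => j ≠ i, atU (sA (A j))) inf_le_left
      (inf_le_left.trans inf_le_left) hV ?_ ?_
    · rintro _ ⟨ℓ, hℓ, rfl⟩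
      obtain ⟨x, hx, h1, h2, h3⟩ := exists_one hperf S hAA hℓ
      refine ⟨x, ⟨⟨hx, h2⟩, ?_⟩, h1⟩
      simp only [SetLike.mem_coe, Submodule.mem_iInf]
      intro j hj
      exact h3 j (Finset.mem_filter.1 hj).1 (Finset.mem_filter.1 hj).2
    · intro x hx y hy
      refine ⟨⟨LU_br x hx.1 y hy.1.1, brU_snd x y⟩, ?_, ?_⟩
      · have e1 : x.1 V = 0 := hx.2
        change (x * y - y * x).1 V = 0
        rw [brU_fst, e1, mul_zero, zero_mul, sub_zero]
      · have hy2 := hy.2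
        simp only [SetLike.mem_coe, Submodule.mem_iInf] at hy2 ⊢
        intro j hj
        have e1 : y.1 (sA (A j)) = 0 := hy2 j hj
        change (x * y - y * x).1 (sA (A j)) = 0
        rw [brU_fst, e1, mul_zero, zero_mul, sub_zero]
  obtain ⟨x, hx, h2⟩ := h1 (⟨ℓ, hℓ, rfl⟩ : nU (A i) ℓ ∈ LU.map (prU (sA (A i))))
  refine ⟨x, hx.1.1, h2, hx.1.2, hx.2.1, fun j hj hji => ?_⟩
  have h3 := hx.2.2
  simp only [SetLike.mem_coe, Submodule.mem_iInf] at h3
  exact h3 j (Finset.mem_filter.2 ⟨hj, hji⟩)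

variable {K : Type} [Fintype K] {e : K → I} {gB : ℕ} {B : AbVar gB}

/-- **Separation** for abelian varieties with homomorphisms to the members of a family. -/
theorem sep_joint (hperf : ∀ i, gA (A i) ≤ brk (gA (A i)) (gA (A i)))
    (hAA : ∀ i j, i ≠ j → SepU (sA (A i)) (sA (A j)))
    {p : ∀ a, B.H1 →ₗ[ℚ] (A (e a)).H1} (hp : ∀ a, IsHm B (A (e a)) (p a))
    (hinj : ∀ u, (∀ a, p a u = 0) → u = 0) {V : UU} (hV : ∀ a, SepU (sA (A (e a))) V) :
    SepU (sA B) V := by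
  classical
  rintro _ ⟨ℓ, hℓ, rfl⟩
  let S : Finset I := Finset.univ.image e
  have hS : ∀ i ∈ S, ∃ x ∈ LU, nU (A i) x = nU (A i) ℓ ∧ x.2 = 0 ∧ x.1 V = 0 ∧
      ∀ j ∈ S, j ≠ i → x.1 (sA (A j)) = 0 := by
    intro i hi
    obtain ⟨a, -, rfl⟩ := Finset.mem_image.1 hi
    exact exists_one' hperf S (fun j _ hj => hAA _ _ (Ne.symm hj)) (hV a) hℓ
  choose! x hx h1 h2 h3 h4 using hS
  refine ⟨∑ i ∈ S, x i, ⟨Submodule.sum_mem _ hx, Submodule.sum_mem _ fun i hi => h3 i hi⟩, ?_⟩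
  have hy : (∑ i ∈ S, x i) ∈ LU := Submodule.sum_mem _ hx
  refine LinearMap.ext fun u => ?_
  have key : ∀ a, p a (nU B (∑ i ∈ S, x i) u - nU B ℓ u) = 0 := by
    intro a
    have hS' : e a ∈ S := Finset.mem_image.2 ⟨a, Finset.mem_univ _, rfl⟩
    rw [map_sub, ← nU_hom (hp a) hy, ← nU_hom (hp a) hℓ, map_sum, LinearMap.sum_apply,
      Finset.sum_eq_single (e a), h1 _ hS', sub_self]
    · intro i hi hne
      have e1 : x i ∈ LU := hx i hi
      have e2 : (x i).2 = 0 := h2 i hi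
      have e3 : (x i).1 (sA (A (e a))) = 0 := h4 i hi (e a) hS' (Ne.symm hne)
      have e4 : nU (A (e a)) (x i) = 0 := by
        refine LinearMap.ext fun v => ?_
        rw [nU_apply]
        have e5 : aU (A (e a)) (x i) = 0 := e3
        rw [e5, e2, zero_div, zero_smul, LinearMap.zero_apply, sub_zero]
      rw [e4, LinearMap.zero_apply]
    · intro h; exact absurd hS' h
  exact sub_eq_zero.1 (hinj _ key)

end joint

/-! ### The blocks -/

section push

variable {ι κ : Type} [Fintype ι] [DecidableEq ι] [Fintype κ] [DecidableEq κ]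
  {HA : Submodule ℂ (Matrix κ κ ℂ)} {HP : Submodule ℂ (Matrix ι ι ℂ)}
  {j : (κ → ℂ) →ₗ[ℂ] (ι → ℂ)}

/-- The images of blocks. -/
theorem block_push (h1 : ∀ X ∈ HA, ∃ X' ∈ HP, ∀ v, X' *ᵥ j v = j (X *ᵥ v))
    (h2 : ∀ X' ∈ HP, ∃ X ∈ HA, ∀ v, X' *ᵥ j v = j (X *ᵥ v)) {Y : Submodule ℂ (κ → ℂ)}
    (hY : Block HA Y) (hn : ∃ y ∈ Y, j y ≠ 0) :
    Block HP (Y.map j) ∧ finrank ℂ (Y.map j) = finrank ℂ Y := by
  have hk : Y ⊓ LinearMap.ker j = ⊥ := by
    by_contra h0
    have h3 : Y ⊓ LinearMap.ker j = Y := by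
      refine hY.min _ ?_ inf_le_left h0
      rintro X hX v ⟨hv1, hv2⟩
      refine ⟨hY.st X hX v hv1, ?_⟩
      obtain ⟨X', hX', h⟩ := h1 X hX
      have hv3 : j v = 0 := hv2
      change j (X *ᵥ v) = 0
      rw [← h, hv3, mulVec_zero]
    obtain ⟨y, hy, hy0⟩ := hn
    rw [← h3] at hy
    exact hy0 hy.2
  refine ⟨⟨?_, ?_, ?_⟩, ?_⟩
  · rintro X' hX' _ ⟨v, hv, rfl⟩
    obtain ⟨X, hX, h⟩ := h2 X' hX'
    rw [h]
    exact ⟨_, hY.st X hX v hv, rfl⟩
  · intro h0
    obtain ⟨y, hy, hy0⟩ := hn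
    have h3 : j y ∈ Y.map j := ⟨y, hy, rfl⟩
    rw [h0, Submodule.mem_bot] at h3
    exact hy0 h3
  · intro Z hZ hZY hZ0
    have h3 : Y ⊓ Z.comap j = Y := by
      refine hY.min _ ?_ inf_le_left ?_
      · rintro X hX v ⟨hv1, hv2⟩
        refine ⟨hY.st X hX v hv1, ?_⟩
        obtain ⟨X', hX', h⟩ := h1 X hX
        change j (X *ᵥ v) ∈ Z
        rw [← h]
        exact hZ X' hX' _ hv2
      · intro h0
        apply hZ0
        rw [Submodule.eq_bot_iff]
        intro z hz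
        obtain ⟨y, hy, rfl⟩ := hZY hz
        have h4 : y ∈ Y ⊓ Z.comap j := ⟨hy, hz⟩
        rw [h0, Submodule.mem_bot] at h4
        rw [h4, map_zero]
    apply le_antisymm hZY
    rintro _ ⟨y, hy, rfl⟩
    rw [SetLike.mem_coe, ← h3] at hy
    exact hy.2
  · have h3 : Function.Injective (j.domRestrict Y) := by
      rw [injective_iff_map_eq_zero]
      rintro ⟨y, hy⟩ h
      have h4 : y ∈ Y ⊓ LinearMap.ker j := ⟨hy, h⟩
      rw [hk, Submodule.mem_bot] at h4
      exact Subtype.ext h4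
    rw [← LinearMap.range_domRestrict, LinearMap.finrank_range_of_inj h3]

end push

section

variable {I : Type} {g : I → ℕ} {A : ∀ i, AbVar (g i)} {K : Type} [Fintype K] {e : K → I}
  {gB : ℕ} {B : AbVar gB}

/-- The blocks are of the same dimension. -/
theorem ad_joint {m : ℕ} (hA : ∀ i, AD (A i) m) {p : ∀ a, B.H1 →ₗ[ℚ] (A (e a)).H1}
    (hp : ∀ a, IsHm B (A (e a)) (p a)) (hinj : ∀ u, (∀ a, p a u = 0) → u = 0) : AD B m := by
  intro Y hY
  rw [← block_full (gA_full B)] at hY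
  obtain ⟨y, hy, hy0⟩ := Y.ne_bot_iff.1 hY.ne
  have h1 : ∃ a, cxl (p a) y ≠ 0 := by
    classical
    by_contra hcon
    push Not at hcon
    let P : B.H1 →ₗ[ℚ] (∀ a, (A (e a)).H1) := LinearMap.pi p
    have hP : LinearMap.ker P = ⊥ := LinearMap.ker_eq_bot'.2 fun u hu =>
      hinj u fun a => congrFun hu a
    obtain ⟨s, hs⟩ := LinearMap.exists_leftInverse_of_injective P hP
    have h2 : ∑ a, (cxl (s.comp (LinearMap.single ℚ (fun a => (A (e a)).H1) a))).comp
        (cxl (p a)) = LinearMap.id := by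
      simp only [← cxl_comp]
      have h3 : ∀ (T : Finset K) (f : K → (Fin (2 * gB) → ℚ) →ₗ[ℚ] (Fin (2 * gB) → ℚ)),
          ∑ a ∈ T, cxl (f a) = cxl (∑ a ∈ T, f a) := by
        intro T f
        induction T using Finset.induction_on with
        | empty => rw [Finset.sum_empty, Finset.sum_empty, cxl_zero]
        | insert a T ha ih => rw [Finset.sum_insert ha, Finset.sum_insert ha, ih, cxl_add]
      rw [h3, ← cxl_id]
      congr 1
      refine LinearMap.ext fun u => ?_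
      rw [LinearMap.sum_apply]
      have h4 : ∀ a, (LinearMap.comp (s.comp (LinearMap.single ℚ (fun a => (A (e a)).H1) a))
          (p a)) u = s (Pi.single a (p a u)) := fun a => rfl
      simp only [h4]
      rw [← map_sum]
      have h5 : ∑ a, (Pi.single a (p a u) : ∀ a, (A (e a)).H1) = P u :=
        Finset.univ_sum_single (P u)
      rw [h5]
      exact LinearMap.congr_fun hs u
    apply hy0
    have h3 := LinearMap.congr_fun h2 y
    rw [LinearMap.sum_apply] at h3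
    rw [LinearMap.id_apply] at h3
    rw [← h3]
    refine Finset.sum_eq_zero fun a _ => ?_
    rw [LinearMap.comp_apply, hcon a, map_zero]
  obtain ⟨a, ha⟩ := h1
  obtain ⟨h2, h3⟩ := inter (C := B) (P := A (e a)) (f := p a) fun ℓ hℓ =>
    LinearMap.ext fun u => nU_hom (hp a) hℓ u
  obtain ⟨h4, h5⟩ := block_push h2 h3 hY ⟨y, hy, ha⟩
  rw [← h5]
  exact hA (e a) _ ((block_full (gA_full (A (e a)))).1 h4)

end

end

end Pool.Agent.V5helper88.ID
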