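import Pool.Agent.V5helper88.ID.I8

/-!
The number of the exceptional members.
-/

set_option autoImplicit false

namespace Pool.Agent.V5helper88.ID

open Module Function Pool.Agent.Y102 Pool.Agent.W516.DR Pool.Agent.H204R3.GP
  Pool.Agent.W516.KC Pool.Agent.H204R3.SP Pool.Agent.N192.GP

noncomputable section

section codim

variable {R : Type} [Ring R] [Algebra ℚ R] {𝔤 𝔫 : Submodule ℚ R}

theorem brk_le_two (hn : Idl 𝔫 𝔤) {x y : R} (hx : x ∈ 𝔤) (hy : y ∈ 𝔤)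
    (h : 𝔤 ≤ 𝔫 ⊔ Submodule.span ℚ {x, y}) :
    brk 𝔤 𝔤 ≤ 𝔫 ⊔ Submodule.span ℚ {x * y - y * x} := by
  unfold brk
  rw [Submodule.span_le]
  rintro _ ⟨X, hX, Y, hY, rfl⟩
  obtain ⟨n, hn1, s, hs, rfl⟩ := Submodule.mem_sup.1 (h hX)
  obtain ⟨n', hn', s', hs', rfl⟩ := Submodule.mem_sup.1 (h hY)
  obtain ⟨a, b, rfl⟩ := Submodule.mem_span_pair.1 hs
  obtain ⟨a', b', rfl⟩ := Submodule.mem_span_pair.1 hs'
  have e1 : (n + (a • x + b • y)) * (n' + (a' • x + b' • y)) -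
      (n' + (a' • x + b' • y)) * (n + (a • x + b • y)) =
      ((n * (n' + (a' • x + b' • y)) - (n' + (a' • x + b' • y)) * n) +
        ((a • x + b • y) * n' - n' * (a • x + b • y))) +
        (a * b' - a' * b) • (x * y - y * x) := by
    simp only [mul_add, add_mul, smul_mul_assoc, mul_smul_comm]
    module
  rw [e1]
  have hxy : a • x + b • y ∈ 𝔤 := 𝔤.add_mem (𝔤.smul_mem a hx) (𝔤.smul_mem b hy)
  exact Submodule.add_mem_sup (𝔫.add_mem (hn.symm hn1 hY) (hn.2 _ hxy _ hn'))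
    (Submodule.smul_mem _ _ (Submodule.mem_span_singleton_self _))

/-- Proper ideals of perfect Lie algebras are of codimension at least three. -/
theorem codim3 [FiniteDimensional ℚ R] (hperf : 𝔤 ≤ brk 𝔤 𝔤) (hbr : Br 𝔤) (hn : Idl 𝔫 𝔤)
    (hne : ¬𝔤 ≤ 𝔫) : finrank ℚ 𝔫 + 3 ≤ finrank ℚ 𝔤 := by
  by_contra hcon
  push Not at hcon
  obtain ⟨x, hx, hx0⟩ := SetLike.not_le_iff_exists.1 hne
  have hle1 : 𝔫 ⊔ Submodule.span ℚ {x} ≤ 𝔤 :=
    sup_le hn.1 ((Submodule.span_singleton_le_iff_mem _ _).2 hx)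
  have hlt1 : 𝔫 < 𝔫 ⊔ Submodule.span ℚ {x} := lt_of_le_not_ge le_sup_left fun h =>
    hx0 (h (Submodule.mem_sup_right (Submodule.mem_span_singleton_self x)))
  have hf1 := Submodule.finrank_lt_finrank_of_lt hlt1
  obtain ⟨y, hy, hxy⟩ : ∃ y ∈ 𝔤, 𝔤 ≤ 𝔫 ⊔ Submodule.span ℚ {x, y} := by
    by_cases h : 𝔤 ≤ 𝔫 ⊔ Submodule.span ℚ {x}
    · refine ⟨x, hx, h.trans (sup_le_sup_left (Submodule.span_mono ?_) _)⟩
      intro z hz
      rw [Set.mem_singleton_iff] at hz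
      rw [hz]
      exact Set.mem_insert _ _
    · obtain ⟨y, hy, hy0⟩ := SetLike.not_le_iff_exists.1 h
      refine ⟨y, hy, ?_⟩
      have h2 : 𝔫 ⊔ Submodule.span ℚ {x} < 𝔫 ⊔ Submodule.span ℚ {x, y} := by
        refine lt_of_le_not_ge (sup_le_sup_left (Submodule.span_mono ?_) _) fun h' =>
          hy0 (h' (Submodule.mem_sup_right (Submodule.subset_span ?_)))
        · intro z hz
          rw [Set.mem_singleton_iff] at hz
          rw [hz]
          exact Set.mem_insert _ _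
        · exact Set.mem_insert_of_mem _ rfl
      have hf2 := Submodule.finrank_lt_finrank_of_lt h2
      have hle2 : 𝔫 ⊔ Submodule.span ℚ {x, y} ≤ 𝔤 := by
        refine sup_le hn.1 (Submodule.span_le.2 ?_)
        rintro z (rfl | rfl)
        · exact hx
        · exact hy
      exact (Submodule.eq_of_le_of_finrank_le hle2 (by omega)).ge
  have h1 : 𝔤 ≤ 𝔫 ⊔ Submodule.span ℚ {x * y - y * x} := hperf.trans (brk_le_two hn hx hy hxy)
  have hz : x * y - y * x ∈ 𝔤 := hbr x hx y hy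
  have h2 : 𝔤 ≤ 𝔫 ⊔ Submodule.span ℚ {x * y - y * x, x * y - y * x} := by
    rw [Set.pair_eq_singleton]
    exact h1
  have h3 := hperf.trans (brk_le_two hn hz hz h2)
  rw [sub_self, Submodule.span_zero_singleton, sup_bot_eq] at h3
  exact hne h3

end codim

section swap

variable {R E F : Type} [AddCommGroup R] [Module ℚ R] [AddCommGroup E] [Module ℚ E]
  [AddCommGroup F] [Module ℚ F] [FiniteDimensional ℚ E] [FiniteDimensional ℚ F]

theorem finrank_split {M N : Type} [AddCommGroup M] [Module ℚ M] [AddCommGroup N] [Module ℚ N]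
    [FiniteDimensional ℚ M] (𝔩 : Submodule ℚ M)
    (q : M →ₗ[ℚ] N) : finrank ℚ (𝔩 ⊓ LinearMap.ker q : Submodule ℚ M) + finrank ℚ (𝔩.map q) =
      finrank ℚ 𝔩 := by
  have h1 := LinearMap.finrank_range_add_finrank_ker (q.domRestrict 𝔩)
  rw [LinearMap.range_domRestrict] at h1
  have h3 : finrank ℚ (LinearMap.ker (q.domRestrict 𝔩)) =
      finrank ℚ (𝔩 ⊓ LinearMap.ker q : Submodule ℚ M) := by
    have h4 : 𝔩 ⊓ LinearMap.ker q = (LinearMap.ker (q.domRestrict 𝔩)).map 𝔩.subtype := by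
      ext x
      constructor
      · rintro ⟨hx, hx'⟩
        exact ⟨⟨x, hx⟩, hx', rfl⟩
      · rintro ⟨⟨x, hx⟩, hx', rfl⟩
        exact ⟨hx, hx'⟩
    rw [h4]
    exact (LinearEquiv.finrank_eq (Submodule.equivMapOfInjective _ 𝔩.subtype_injective _))
  rw [h3] at h1
  omega

theorem swap_aux (𝔪 : Submodule ℚ R) (ρ : R →ₗ[ℚ] E) (ν : R →ₗ[ℚ] F) :
    finrank ℚ ((𝔪 ⊓ LinearMap.ker ρ).map ν) + finrank ℚ (𝔪.map ρ) =
      finrank ℚ (𝔪.map (ρ.prod ν)) := by
  have h1 := finrank_split (𝔪.map (ρ.prod ν)) (LinearMap.fst ℚ E F)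
  have h2 : (𝔪.map (ρ.prod ν)).map (LinearMap.fst ℚ E F) = 𝔪.map ρ := by
    rw [← Submodule.map_comp]; rfl
  have h3 : finrank ℚ (𝔪.map (ρ.prod ν) ⊓ LinearMap.ker (LinearMap.fst ℚ E F) :
      Submodule ℚ (E × F)) = finrank ℚ ((𝔪 ⊓ LinearMap.ker ρ).map ν) := by
    have h4 : 𝔪.map (ρ.prod ν) ⊓ LinearMap.ker (LinearMap.fst ℚ E F) =
        ((𝔪 ⊓ LinearMap.ker ρ).map ν).map (LinearMap.inr ℚ E F) := by
      ext x
      constructor
      · rintro ⟨⟨r, hr, rfl⟩, h⟩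
        have h' : ρ r = 0 := h
        refine ⟨ν r, ⟨r, ⟨hr, h'⟩, rfl⟩, ?_⟩
        exact Prod.ext h'.symm rfl
      · rintro ⟨_, ⟨r, ⟨hr, h'⟩, rfl⟩, rfl⟩
        have h'' : ρ r = 0 := h'
        refine ⟨⟨r, hr, ?_⟩, rfl⟩
        exact Prod.ext h'' rfl
    rw [h4]
    exact (LinearEquiv.finrank_eq (Submodule.equivMapOfInjective _ LinearMap.inr_injective _)).symm
  rw [h2, h3] at h1
  exact h1

theorem swap_dim (𝔪 : Submodule ℚ R) (ρ : R →ₗ[ℚ] E) (ν : R →ₗ[ℚ] F) :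
    finrank ℚ ((𝔪 ⊓ LinearMap.ker ρ).map ν) + finrank ℚ (𝔪.map ρ) =
      finrank ℚ ((𝔪 ⊓ LinearMap.ker ν).map ρ) + finrank ℚ (𝔪.map ν) := by
  have h1 := swap_aux 𝔪 ρ ν
  have h2 := swap_aux 𝔪 ν ρ
  have h3 : finrank ℚ (𝔪.map (ρ.prod ν)) = finrank ℚ (𝔪.map (ν.prod ρ)) := by
    have h4 : 𝔪.map (ν.prod ρ) = (𝔪.map (ρ.prod ν)).map
        (LinearEquiv.prodComm ℚ E F : (E × F) →ₗ[ℚ] (F × E)) := by
      rw [← Submodule.map_comp]; rfl
    rw [h4]
    exact (LinearEquiv.finrank_map_eq _ _).symm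
  omega

end swap

section exc

variable {I : Type} {g : I → ℕ} {A : ∀ i, AbVar (g i)}

/-- The action on a structure. -/
def ρU (V : UU) : RU →ₗ[ℚ] Module.End ℚ (Fin V.1 → ℚ) where
  toFun ℓ := ℓ.1 V
  map_add' _ _ := rfl
  map_smul' _ _ := rfl

theorem gA_br {g : ℕ} (A : AbVar g) : Br (gA A) := by
  rintro _ ⟨x, hx, rfl⟩ _ ⟨y, hy, rfl⟩
  exact ⟨x * y - y * x, LU_br x hx y hy, nU_hm A⟩

theorem nU_zero_of {g : ℕ} {A : AbVar g} {x : RU} (h1 : x.1 (sA A) = 0) (h2 : x.2 = 0) :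
    nU A x = 0 := by
  refine LinearMap.ext fun v => ?_
  have e5 : aU A x = 0 := h1
  rw [nU_apply, e5, h2, zero_div, zero_smul, LinearMap.zero_apply, sub_zero]

/-- **The number of exceptional members.** -/
theorem exc_bound (hperf : ∀ i, gA (A i) ≤ brk (gA (A i)) (gA (A i)))
    (hAA : ∀ i j, i ≠ j → SepU (sA (A i)) (sA (A j))) {V : UU} (S : Finset I)
    (hS : ∀ i ∈ S, ¬SepU (sA (A i)) V) : 3 * S.card ≤ V.1 * V.1 := by
  classical
  have key : ∀ T : Finset I, T ⊆ S → finrank ℚ ((LU ⊓ ⨅ j ∈ T, LinearMap.ker (nU (A j))).map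
      (ρU V)) + 3 * T.card ≤ V.1 * V.1 := by
    intro T
    induction T using Finset.induction_on with
    | empty =>
      intro _
      rw [Finset.card_empty, mul_zero, add_zero]
      refine (Submodule.finrank_le _).trans ?_
      rw [Module.finrank_linearMap, Module.finrank_fin_fun]
    | insert i T hi ih =>
      intro hT
      have h1 := ih ((Finset.subset_insert i T).trans hT)
      have hiS : i ∈ S := hT (Finset.mem_insert_self i T)
      rw [Finset.card_insert_of_notMem hi, Finset.iInf_insert]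
      have e1 : LU ⊓ (LinearMap.ker (nU (A i)) ⊓ ⨅ j ∈ T, LinearMap.ker (nU (A j))) =
          (LU ⊓ ⨅ j ∈ T, LinearMap.ker (nU (A j))) ⊓ LinearMap.ker (nU (A i)) := by
        rw [inf_assoc, inf_comm (LinearMap.ker (nU (A i)))]
      rw [e1]
      have h2 := swap_dim (LU ⊓ ⨅ j ∈ T, LinearMap.ker (nU (A j))) (ρU V) (nU (A i))
      have h3 : (LU ⊓ ⨅ j ∈ T, LinearMap.ker (nU (A j))).map (nU (A i)) = gA (A i) := by
        apply le_antisymm (Submodule.map_mono inf_le_left)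
        rintro _ ⟨ℓ, hℓ, rfl⟩
        obtain ⟨x, hx, a1, a2, a3⟩ := exists_one hperf T
          (fun j _ hj => hAA i j (Ne.symm hj)) hℓ
        refine ⟨x, ⟨hx, ?_⟩, a1⟩
        simp only [SetLike.mem_coe, Submodule.mem_iInf]
        intro j hj
        exact nU_zero_of (a3 j hj fun h => hi (h ▸ hj)) a2
      have h4 : finrank ℚ (((LU ⊓ ⨅ j ∈ T, LinearMap.ker (nU (A j))) ⊓
          LinearMap.ker (ρU V)).map (nU (A i))) + 3 ≤ finrank ℚ (gA (A i)) := by
        have h5 : ((LU ⊓ ⨅ j ∈ T, LinearMap.ker (nU (A j))) ⊓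
            LinearMap.ker (ρU V)).map (nU (A i)) ≤ (LU ⊓ atU V).map (nU (A i)) :=
          Submodule.map_mono fun x hx => ⟨hx.1.1, hx.2⟩
        have h6 : Idl ((LU ⊓ atU V).map (nU (A i))) (gA (A i)) := by
          refine ⟨Submodule.map_mono inf_le_left, ?_⟩
          rintro _ ⟨x, hx, rfl⟩ _ ⟨y, hy, rfl⟩
          exact ⟨x * y - y * x, (idlU_at V).2 x hx y hy, nU_hm (A i)⟩
        have h7 := codim3 (hperf i) (gA_br (A i)) h6 (hS i hiS)
        have h8 := Submodule.finrank_mono h5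
        omega
      rw [h3] at h2
      omega
  have h1 := key S le_rfl
  omega

end exc

/-- Structures of CM type are separated. -/
theorem sepU_cm {s V : UU} (hperf : ggU s ≤ brk (ggU s) (ggU s))
    (h : ∀ X Y : Module.End ℚ (Fin V.1 → ℚ),
      (∀ P, IsDeRhamBettiEnd QBar V.2.eta P → X * P = P * X) →
      (∀ P, IsDeRhamBettiEnd QBar V.2.eta P → Y * P = P * Y) → X * Y = Y * X) : SepU s V := by
  have key : ∀ x ∈ LU, ∀ P : Module.End ℚ (Fin V.1 → ℚ), IsDeRhamBettiEnd QBar V.2.eta P →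
      x.1 V * P = P * x.1 V := by
    intro x hx P hP
    obtain ⟨a, ha⟩ := hP
    exact LinearMap.ext fun u => LU_hom (V' := V) (V := V) ⟨a, ha⟩ hx u
  refine step (prU_hm s LU) hperf le_rfl le_rfl le_rfl le_rfl fun x hx y hy =>
    ⟨LU_br x hx y hy, ?_⟩
  change (x * y - y * x).1 V = 0
  rw [brU_fst, h _ _ (key x hx) (key y hy), sub_self]

end

end Pool.Agent.V5helper88.ID
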